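import Pool.Agent.Helper97.Tarsi.Main

set_option autoImplicit false
set_option linter.unusedSectionVars false

/-! From acyclic graphs and degeneracy to the counting conditions. -/

namespace Pool.Agent.Helper97.Tarsi

open Finset

theorem acyclic_exists {V : Type*} [Finite V] [Nonempty V] {T : SimpleGraph V}
    (h : T.IsAcyclic) : ∃ v, ∀ w w', T.Adj v w → T.Adj v w' → w = w' := by
  obtain ⟨u, v, p, hp, hmax⟩ := SimpleGraph.Walk.exists_isPath_forall_isPath_length_le_length T
  refine ⟨u, ?_⟩
  have key : ∀ w, T.Adj u w → w = p.snd := by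
    intro w hw
    by_cases hw2 : w ∈ p.support
    · apply h.eq_snd_of_adj_start hp hw hw2
    · exfalso
      have h1 : (p.cons hw.symm).IsPath := by
        rw [SimpleGraph.Walk.cons_isPath_iff]
        exact ⟨hp, hw2⟩
      have h2 := hmax _ _ _ h1
      rw [SimpleGraph.Walk.length_cons] at h2
      omega
  intro w w' hw hw'
  rw [key w hw, key w' hw']

theorem acyclic_low {V : Type*} {T : SimpleGraph V} (h : T.IsAcyclic) (S : Finset V)
    (hS : S.Nonempty) :
    ∃ v ∈ S, ∀ w ∈ S, ∀ w' ∈ S, T.Adj v w → T.Adj v w' → w = w' := by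
  have : Nonempty (S : Set V) := by
    obtain ⟨x, hx⟩ := hS
    exact ⟨⟨x, hx⟩⟩
  have : Finite (S : Set V) := S.finite_toSet
  obtain ⟨v, hv⟩ := acyclic_exists (h.induce (S : Set V))
  refine ⟨v.1, v.2, ?_⟩
  intro w hw w' hw' h1 h2
  have := hv ⟨w, hw⟩ ⟨w', hw'⟩ (by simpa using h1) (by simpa using h2)
  exact congrArg Subtype.val this

variable {V : Type*} [DecidableEq V]

open Classical in
theorem X_le_one {G : SimpleGraph V} {v : V} {S : Finset V}
    (h : ∀ w ∈ S, ∀ w' ∈ S, G.Adj v w → G.Adj v w' → w = w') : X G {v} S ≤ 1 := by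
  rw [X_singleton_card, Finset.card_le_one]
  intro a ha b hb
  rw [Finset.mem_filter] at ha hb
  exact h a ha.1 b hb.1 ha.2 hb.2

theorem Fo_of_acyclic {F : SimpleGraph V} (h : F.IsAcyclic) (A : Finset V) : Fo F A := by
  have key : ∀ n : ℕ, ∀ B : Finset V, B.card = n + 1 → X F B B + 2 ≤ 2 * B.card := by
    intro n
    induction n with
    | zero =>
      intro B hB
      have := X_self_le F B
      rw [hB] at this ⊢
      omega
    | succ n ih =>
      intro B hB
      obtain ⟨v, hv, hlow⟩ := acyclic_low h B (Finset.card_pos.1 (by omega))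
      have hs : ({v} : Finset V) ⊆ B := Finset.singleton_subset_iff.2 hv
      have hc : (B \ {v}).card + 1 = B.card := by
        rw [Finset.card_sdiff_of_subset hs]; simp; omega
      have h1 := ih (B \ {v}) (by omega)
      have h2 := X_le_one hlow
      have e := X_split F hs
      rw [X_singleton_self] at e
      have e2 := X_split_right F {v} hs
      rw [X_singleton_self] at e2
      omega
  intro B _ hBn
  have := Finset.card_pos.2 hBn
  exact key (B.card - 1) B (by omega)

open Classical in
theorem exists_rank {H : SimpleGraph V}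
    (h : ∀ S : Finset V, S.Nonempty → ∃ v ∈ S, ({w : V | w ∈ S ∧ H.Adj v w} : Set V).ncard ≤ 2)
    (n : ℕ) : ∀ A : Finset V, A.card = n → ∃ r : V → ℕ, (∀ a ∈ A, r a < n) ∧ Rk H r A := by
  induction n with
  | zero =>
    intro A hA
    rw [Finset.card_eq_zero] at hA
    subst hA
    exact ⟨fun _ => 0, by simp, by constructor <;> simp⟩
  | succ n ih =>
    intro A hA
    obtain ⟨v, hv, hdeg⟩ := h A (Finset.card_pos.1 (by omega))
    have hc : (A.erase v).card = n := by rw [Finset.card_erase_of_mem hv]; omega
    obtain ⟨r, hr1, hr2⟩ := ih (A.erase v) hc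
    have hval : ∀ a, (fun a => if a = v then n else r a) a = if a = v then n else r a :=
      fun _ => rfl
    refine ⟨fun a => if a = v then n else r a, ?_, ?_⟩
    · intro a ha
      rw [hval]
      split
      · omega
      · rename_i hne
        have := hr1 a (Finset.mem_erase.2 ⟨hne, ha⟩)
        omega
    · refine Rk.of ?_ ?_
      · intro a ha b hb hab
        by_cases ha' : a = v <;> by_cases hb' : b = v
        · rw [ha', hb']
        · have := hr1 b (Finset.mem_erase.2 ⟨hb', hb⟩)
          rw [if_pos ha', if_neg hb'] at hab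
          omega
        · have := hr1 a (Finset.mem_erase.2 ⟨ha', ha⟩)
          rw [if_neg ha', if_pos hb'] at hab
          omega
        · rw [if_neg ha', if_neg hb'] at hab
          exact hr2.1 a (Finset.mem_erase.2 ⟨ha', ha⟩) b (Finset.mem_erase.2 ⟨hb', hb⟩) hab
      · intro a ha S hS
        by_cases ha' : a = v
        · rw [ha'] at hS
          have h1 : (S : Set V).ncard ≤ 2 := by
            refine le_trans (Set.ncard_le_ncard ?_ ?_) hdeg
            · intro b hb
              have := hS b hb
              exact ⟨this.1, this.2.1⟩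
            · exact Set.Finite.subset A.finite_toSet (fun b hb => hb.1)
          rwa [Set.ncard_coe_finset] at h1
        · refine hr2.le (Finset.mem_erase.2 ⟨ha', ha⟩) (fun b hb => ?_)
          obtain ⟨hb1, hb2, hb3⟩ := hS b hb
          rw [if_neg ha'] at hb3
          have hra := hr1 a (Finset.mem_erase.2 ⟨ha', ha⟩)
          by_cases hb' : b = v
          · rw [if_pos hb'] at hb3; omega
          · rw [if_neg hb'] at hb3
            exact ⟨Finset.mem_erase.2 ⟨hb', hb1⟩, hb2, hb3⟩

open Classical in
theorem X_univ [Fintype V] (G : SimpleGraph V) :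
    X G Finset.univ Finset.univ = 2 * G.edgeSet.ncard := by
  have h1 : G.edgeSet.ncard = G.edgeFinset.card := by
    rw [Set.ncard_eq_toFinset_card']
    rfl
  rw [X_eq_sum, h1, ← G.sum_degrees_eq_twice_card_edges]
  apply Finset.sum_congr rfl
  intro v _
  rw [X_singleton_card, ← SimpleGraph.card_neighborFinset_eq_degree]
  congr 1
  ext w
  simp

theorem final {V : Type*} [Fintype V] (F H : SimpleGraph V) (hF : F.IsAcyclic)
    (hH : ∀ S : Finset V, S.Nonempty →
      ∃ v ∈ S, ({w : V | w ∈ S ∧ H.Adj v w} : Set V).ncard ≤ 2) :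
    ∃ J : Finset V, (F ⊔ H).IsIndepSet (J : Set V) ∧
      11 * Fintype.card V ≤ 45 * J.card + (F ⊔ H).edgeSet.ncard ∧
      (2 ≤ Fintype.card V → 8 * Fintype.card V + 4 ≤ 45 * J.card) := by
  classical
  obtain ⟨r, _, hr⟩ := exists_rank hH (Finset.univ : Finset V).card Finset.univ rfl
  have hfo := Fo_of_acyclic hF (Finset.univ : Finset V)
  obtain ⟨J, _, hJi, hJc⟩ := main _ F H r Finset.univ rfl hfo hr
  refine ⟨J, ?_, ?_, ?_⟩
  · intro a ha b hb _
    exact hJi a ha b hb
  · rw [X_univ, Finset.card_univ] at hJc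
    omega
  · intro h2
    have h3 := edges_union hfo hr (by rw [Finset.card_univ]; exact h2)
    rw [Finset.card_univ] at h3 hJc
    omega

end Pool.Agent.Helper97.Tarsi
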