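import Mathlib

set_option autoImplicit false
set_option linter.unusedSectionVars false

/-! Counting ordered adjacent pairs between finite sets of vertices; forests and
2-degenerate graphs through counts and rankings. -/

namespace Pool.Agent.Helper97.Tarsi

open Finset

variable {V : Type*}

open Classical in
/-- indicator of adjacency -/
noncomputable def ind (G : SimpleGraph V) (p q : V) : ℕ := if G.Adj p q then 1 else 0

/-- number of ordered adjacent pairs from `B` to `C` -/
noncomputable def X (G : SimpleGraph V) (B C : Finset V) : ℕ := ∑ b ∈ B, ∑ c ∈ C, ind G b c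

theorem ind_comm (G : SimpleGraph V) (p q : V) : ind G p q = ind G q p := by
  unfold ind
  by_cases h : G.Adj p q
  · simp [h, h.symm]
  · have h2 : ¬ G.Adj q p := fun e => h e.symm
    simp [h, h2]

theorem ind_self (G : SimpleGraph V) (p : V) : ind G p p = 0 := by
  unfold ind; simp

theorem ind_le (G : SimpleGraph V) (p q : V) : ind G p q ≤ 1 := by
  unfold ind; split <;> omega

theorem ind_of_adj {G : SimpleGraph V} {p q : V} (h : G.Adj p q) : ind G p q = 1 := by
  unfold ind; simp [h]

theorem ind_of_not {G : SimpleGraph V} {p q : V} (h : ¬ G.Adj p q) : ind G p q = 0 := by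
  unfold ind; simp [h]

theorem adj_of_ind {G : SimpleGraph V} {p q : V} (h : ind G p q = 1) : G.Adj p q := by
  by_contra hn; rw [ind_of_not hn] at h; omega

theorem ind_sup_le (F H : SimpleGraph V) (p q : V) : ind (F ⊔ H) p q ≤ ind F p q + ind H p q := by
  unfold ind
  by_cases h1 : F.Adj p q <;> by_cases h2 : H.Adj p q <;> simp [h1, h2]

theorem X_comm (G : SimpleGraph V) (B C : Finset V) : X G B C = X G C B := by
  unfold X
  rw [Finset.sum_comm]
  apply Finset.sum_congr rfl; intro c _
  apply Finset.sum_congr rfl; intro b _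
  exact ind_comm G b c

theorem X_sup_le (F H : SimpleGraph V) (B C : Finset V) : X (F ⊔ H) B C ≤ X F B C + X H B C := by
  unfold X
  rw [← Finset.sum_add_distrib]
  apply Finset.sum_le_sum; intro b _
  rw [← Finset.sum_add_distrib]
  apply Finset.sum_le_sum; intro c _
  exact ind_sup_le F H b c

theorem X_empty_left (G : SimpleGraph V) (C : Finset V) : X G ∅ C = 0 := by simp [X]

theorem X_empty_right (G : SimpleGraph V) (C : Finset V) : X G C ∅ = 0 := by simp [X]

variable [DecidableEq V]

theorem X_union_left (G : SimpleGraph V) {B B' : Finset V} (C : Finset V) (h : Disjoint B B') :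
    X G (B ∪ B') C = X G B C + X G B' C := by
  unfold X; rw [Finset.sum_union h]

theorem X_union_right (G : SimpleGraph V) (B : Finset V) {C C' : Finset V} (h : Disjoint C C') :
    X G B (C ∪ C') = X G B C + X G B C' := by
  rw [X_comm, X_union_left G B h, X_comm G C, X_comm G C']

theorem X_mono {G : SimpleGraph V} {B B' C C' : Finset V} (h : B ⊆ B') (h' : C ⊆ C') :
    X G B C ≤ X G B' C' := by
  unfold X
  calc ∑ b ∈ B, ∑ c ∈ C, ind G b c ≤ ∑ b ∈ B', ∑ c ∈ C, ind G b c :=
        Finset.sum_le_sum_of_subset h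
    _ ≤ ∑ b ∈ B', ∑ c ∈ C', ind G b c :=
        Finset.sum_le_sum (fun b _ => Finset.sum_le_sum_of_subset h')

theorem X_split_right (G : SimpleGraph V) (B : Finset V) {R A : Finset V} (h : R ⊆ A) :
    X G B A = X G B R + X G B (A \ R) := by
  rw [← X_union_right G B (Finset.disjoint_sdiff), Finset.union_sdiff_of_subset h]

theorem X_split_left (G : SimpleGraph V) (B : Finset V) {R A : Finset V} (h : R ⊆ A) :
    X G A B = X G R B + X G (A \ R) B := by
  rw [X_comm, X_split_right G B h, X_comm G B R, X_comm G B]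

theorem X_split (G : SimpleGraph V) {R A : Finset V} (h : R ⊆ A) :
    X G A A = X G (A \ R) (A \ R) + 2 * X G R (A \ R) + X G R R := by
  rw [X_split_left G A h, X_split_right G R h, X_split_right G (A \ R) h, X_comm G (A \ R) R]
  ring

theorem X_union (G : SimpleGraph V) {B C : Finset V} (h : Disjoint B C) :
    X G (B ∪ C) (B ∪ C) = X G B B + 2 * X G B C + X G C C := by
  rw [X_union_left G _ h, X_union_right G B h, X_union_right G C h, X_comm G C B]
  ring

theorem X_singleton_left (G : SimpleGraph V) (v : V) (C : Finset V) :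
    X G {v} C = ∑ c ∈ C, ind G v c := by simp [X]

theorem X_singleton_self (G : SimpleGraph V) (v : V) : X G {v} {v} = 0 := by
  simp [X, ind_self]

open Classical in
theorem X_singleton_card (G : SimpleGraph V) (v : V) (C : Finset V) :
    X G {v} C = (C.filter (fun c => G.Adj v c)).card := by
  rw [X_singleton_left, Finset.card_filter]
  rfl

theorem X_eq_sum (G : SimpleGraph V) (B C : Finset V) : X G B C = ∑ b ∈ B, X G {b} C := by
  unfold X; simp

theorem X_le_mul (G : SimpleGraph V) (B C : Finset V) : X G B C ≤ B.card * C.card := by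
  unfold X
  calc ∑ b ∈ B, ∑ c ∈ C, ind G b c ≤ ∑ b ∈ B, ∑ c ∈ C, 1 :=
        Finset.sum_le_sum (fun b _ => Finset.sum_le_sum (fun c _ => ind_le G b c))
    _ = B.card * C.card := by simp

theorem X_single_le (G : SimpleGraph V) (b : V) (B : Finset V) (hb : b ∈ B) :
    X G {b} B + 1 ≤ B.card := by
  have h : B = {b} ∪ (B \ {b}) := by
    rw [Finset.union_sdiff_of_subset (Finset.singleton_subset_iff.2 hb)]
  have h1 : X G {b} B = X G {b} {b} + X G {b} (B \ {b}) :=
    X_split_right G {b} (Finset.singleton_subset_iff.2 hb)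
  have h2 := X_le_mul G {b} (B \ {b})
  have h3 : (B \ {b}).card + 1 = B.card := by
    rw [Finset.card_sdiff_of_subset (Finset.singleton_subset_iff.2 hb)]
    have := Finset.card_pos.2 ⟨b, hb⟩
    simp; omega
  rw [X_singleton_self] at h1
  simp only [Finset.card_singleton, one_mul] at h2
  omega

theorem X_self_le (G : SimpleGraph V) (B : Finset V) : X G B B + B.card ≤ B.card * B.card := by
  rw [X_eq_sum]
  have : ∑ b ∈ B, X G {b} B + B.card = ∑ b ∈ B, (X G {b} B + 1) := by
    rw [Finset.sum_add_distrib]; simp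
  rw [this]
  calc ∑ b ∈ B, (X G {b} B + 1) ≤ ∑ b ∈ B, B.card :=
        Finset.sum_le_sum (fun b hb => X_single_le G b B hb)
    _ = B.card * B.card := by simp

theorem X_clique (G : SimpleGraph V) (B : Finset V)
    (h : ∀ a ∈ B, ∀ b ∈ B, a ≠ b → G.Adj a b) : X G B B + B.card = B.card * B.card := by
  rw [X_eq_sum]
  have : ∑ b ∈ B, X G {b} B + B.card = ∑ b ∈ B, (X G {b} B + 1) := by
    rw [Finset.sum_add_distrib]; simp
  rw [this]
  have h2 : ∀ b ∈ B, X G {b} B + 1 = B.card := by
    intro b hb
    have h1 : X G {b} B = X G {b} {b} + X G {b} (B \ {b}) :=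
      X_split_right G {b} (Finset.singleton_subset_iff.2 hb)
    rw [X_singleton_self] at h1
    have h3 : (B \ {b}).card + 1 = B.card := by
      rw [Finset.card_sdiff_of_subset (Finset.singleton_subset_iff.2 hb)]
      have := Finset.card_pos.2 ⟨b, hb⟩
      simp; omega
    have h4 : X G {b} (B \ {b}) = (B \ {b}).card := by
      rw [X_singleton_left, Finset.card_eq_sum_ones]
      apply Finset.sum_congr rfl
      intro c hc
      simp only [Finset.mem_sdiff, Finset.mem_singleton] at hc
      exact ind_of_adj (h b hb c hc.1 (fun e => hc.2 e.symm))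
    omega
  rw [Finset.sum_congr rfl h2]; simp

theorem X_even (G : SimpleGraph V) (B : Finset V) : Even (X G B B) := by
  induction B using Finset.induction_on with
  | empty => simp [X]
  | insert a B ha ih =>
    have : insert a B = {a} ∪ B := by ext; simp
    rw [this, X_union G (by simpa using ha), X_singleton_self]
    obtain ⟨k, hk⟩ := ih
    exact ⟨X G {a} B + k, by omega⟩

/-- supermodularity -/
theorem X_supermod (G : SimpleGraph V) (B C : Finset V) :
    X G B B + X G C C ≤ X G (B ∪ C) (B ∪ C) + X G (B ∩ C) (B ∩ C) := by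
  set I := B ∩ C
  have hB : B = I ∪ (B \ C) := by
    ext x; simp only [I, Finset.mem_union, Finset.mem_inter, Finset.mem_sdiff]; tauto
  have hC : C = I ∪ (C \ B) := by
    ext x; simp only [I, Finset.mem_union, Finset.mem_inter, Finset.mem_sdiff]; tauto
  have hU : B ∪ C = I ∪ ((B \ C) ∪ (C \ B)) := by
    ext x; simp only [I, Finset.mem_union, Finset.mem_inter, Finset.mem_sdiff]; tauto
  have d1 : Disjoint I (B \ C) := by
    rw [Finset.disjoint_left]; intro x; simp only [I, Finset.mem_inter, Finset.mem_sdiff]; tauto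
  have d2 : Disjoint I (C \ B) := by
    rw [Finset.disjoint_left]; intro x; simp only [I, Finset.mem_inter, Finset.mem_sdiff]; tauto
  have d3 : Disjoint (B \ C) (C \ B) := by
    rw [Finset.disjoint_left]; intro x; simp only [Finset.mem_sdiff]; tauto
  have d4 : Disjoint I ((B \ C) ∪ (C \ B)) := by
    rw [Finset.disjoint_union_right]; exact ⟨d1, d2⟩
  have e1 : X G B B = X G I I + 2 * X G I (B \ C) + X G (B \ C) (B \ C) := by
    conv_lhs => rw [hB]
    exact X_union G d1
  have e2 : X G C C = X G I I + 2 * X G I (C \ B) + X G (C \ B) (C \ B) := by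
    conv_lhs => rw [hC]
    exact X_union G d2
  have e3 : X G (B ∪ C) (B ∪ C) = X G I I + 2 * X G I ((B \ C) ∪ (C \ B)) +
      X G ((B \ C) ∪ (C \ B)) ((B \ C) ∪ (C \ B)) := by
    rw [hU]; exact X_union G d4
  have e4 := X_union G d3
  have e5 := X_union_right G I d3
  omega

/-- count condition for a forest on `A` -/
def Fo (F : SimpleGraph V) (A : Finset V) : Prop :=
  ∀ B ⊆ A, B.Nonempty → X F B B + 2 ≤ 2 * B.card

open Classical in
/-- ranking condition for a 2-degenerate graph on `A` -/
def Rk (H : SimpleGraph V) (r : V → ℕ) (A : Finset V) : Prop :=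
  (∀ a ∈ A, ∀ b ∈ A, r a = r b → a = b) ∧
    ∀ a ∈ A, (A.filter (fun b => H.Adj a b ∧ r b < r a)).card ≤ 2

open Classical in
/-- instance-free use of the ranking condition -/
theorem Rk.le {H : SimpleGraph V} {r : V → ℕ} {A : Finset V} (h : Rk H r A) {a : V} (ha : a ∈ A)
    {S : Finset V} (hS : ∀ b ∈ S, b ∈ A ∧ H.Adj a b ∧ r b < r a) : S.card ≤ 2 := by
  refine le_trans (Finset.card_le_card ?_) (h.2 a ha)
  intro b hb
  exact Finset.mem_filter.2 (hS b hb)

open Classical in
theorem Rk.of {H : SimpleGraph V} {r : V → ℕ} {A : Finset V}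
    (hi : ∀ a ∈ A, ∀ b ∈ A, r a = r b → a = b)
    (h : ∀ a ∈ A, ∀ S : Finset V, (∀ b ∈ S, b ∈ A ∧ H.Adj a b ∧ r b < r a) → S.card ≤ 2) :
    Rk H r A :=
  ⟨hi, fun a ha => h a ha _ (fun b hb => Finset.mem_filter.1 hb)⟩

open Classical in
theorem X_one {G : SimpleGraph V} {q : V} {C : Finset V} (h : X G {q} C = 1) :
    ∃ t ∈ C, G.Adj q t ∧ ∀ t' ∈ C, G.Adj q t' → t' = t := by
  rw [X_singleton_card, Finset.card_eq_one] at h
  obtain ⟨t, ht⟩ := h
  have h1 := Finset.mem_singleton_self t
  rw [← ht] at h1
  refine ⟨t, (Finset.mem_filter.1 h1).1, (Finset.mem_filter.1 h1).2, fun t' ht' hadj => ?_⟩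
  have h2 : t' ∈ C.filter (fun c => G.Adj q c) := Finset.mem_filter.2 ⟨ht', hadj⟩
  rw [ht] at h2
  exact Finset.mem_singleton.1 h2

open Classical in
/-- lower bound for the degree into `C` from a set of neighbours -/
theorem card_le_X {G : SimpleGraph V} {q : V} {C S : Finset V} (hS : ∀ b ∈ S, b ∈ C ∧ G.Adj q b) :
    S.card ≤ X G {q} C := by
  rw [X_singleton_card]
  refine Finset.card_le_card ?_
  intro b hb
  exact Finset.mem_filter.2 (hS b hb)

theorem card_sdiff_one (S : Finset V) (y : V) : S.card ≤ (S \ {y}).card + 1 := by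
  have := Finset.card_le_card_sdiff_add_card (s := S) (t := {y})
  simpa using this

theorem Fo.mono {F : SimpleGraph V} {A B : Finset V} (h : Fo F A) (hB : B ⊆ A) : Fo F B :=
  fun C hC hn => h C (hC.trans hB) hn

theorem Rk.mono {H : SimpleGraph V} {r : V → ℕ} {A B : Finset V} (h : Rk H r A) (hB : B ⊆ A) :
    Rk H r B := by
  classical
  refine ⟨fun a ha b hb => h.1 a (hB ha) b (hB hb), fun a ha => ?_⟩
  refine le_trans (Finset.card_le_card ?_) (h.2 a (hB ha))
  exact Finset.filter_subset_filter _ hB

/-- the top vertex has degree at most 2 -/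
theorem Rk.exists_top {H : SimpleGraph V} {r : V → ℕ} {A : Finset V} (h : Rk H r A)
    (hA : A.Nonempty) : ∃ m ∈ A, X H {m} A ≤ 2 := by
  classical
  obtain ⟨m, hm, hmax⟩ := Finset.exists_max_image A r hA
  refine ⟨m, hm, ?_⟩
  rw [X_singleton_card]
  refine le_trans (Finset.card_le_card ?_) (h.2 m hm)
  intro b hb
  simp only [Finset.mem_filter] at hb ⊢
  refine ⟨hb.1, hb.2, ?_⟩
  rcases Nat.lt_or_ge (r b) (r m) with h1 | h1
  · exact h1
  · exfalso
    have := h.1 b hb.1 m hm (le_antisymm (hmax b hb.1) h1)
    subst this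
    exact H.irrefl hb.2

/-- edge bound for 2-degenerate graphs -/
theorem Rk.edges {H : SimpleGraph V} {r : V → ℕ} {A : Finset V} (h : Rk H r A)
    (hA : 2 ≤ A.card) : X H A A + 6 ≤ 4 * A.card := by
  induction hn : A.card generalizing A with
  | zero => omega
  | succ n ih =>
    obtain ⟨m, hm, hd⟩ := h.exists_top (Finset.card_pos.1 (by omega))
    have hs : ({m} : Finset V) ⊆ A := Finset.singleton_subset_iff.2 hm
    have hc : (A \ {m}).card + 1 = A.card := by
      rw [Finset.card_sdiff_of_subset hs]; simp; omega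
    have e := X_split H hs
    rw [X_singleton_self] at e
    have e2 := X_split_right H {m} hs
    rw [X_singleton_self] at e2
    rcases Nat.lt_or_ge n 2 with h1 | h1
    · have h2 := X_self_le H A
      have : A.card = 2 := by omega
      rw [this] at h2
      omega
    · have := ih (A := A \ {m}) (h.mono Finset.sdiff_subset) (by omega) (by omega)
      omega

theorem Rk.edges' {H : SimpleGraph V} {r : V → ℕ} {A : Finset V} (h : Rk H r A)
    (hA : A.Nonempty) : X H A A + 4 ≤ 4 * A.card := by
  rcases Nat.lt_or_ge A.card 2 with h1 | h1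
  · have h2 := X_self_le H A
    have h3 := Finset.card_pos.2 hA
    have : A.card = 1 := by omega
    rw [this] at h2 ⊢
    omega
  · have := h.edges h1; omega

end Pool.Agent.Helper97.Tarsi
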