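import Pool.Agent.Helper97.Tarsi.Red

set_option autoImplicit false
set_option linter.unusedSectionVars false

/-! No clique of size five all of whose vertices have degree five. -/

namespace Pool.Agent.Helper97.Tarsi

open Finset

variable {V : Type*} [DecidableEq V]

theorem X_edge_le (u v : V) (B : Finset V) : X (SimpleGraph.edge u v) B B ≤ 2 := by
  classical
  have h1 : ∀ p q : V, ind (SimpleGraph.edge u v) p q ≤
      (if p = u then (if q = v then 1 else 0) else 0) +
        (if p = v then (if q = u then 1 else 0) else 0) := by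
    intro p q
    by_cases h : (SimpleGraph.edge u v).Adj p q
    · rw [ind_of_adj h]
      rw [SimpleGraph.edge_adj] at h
      rcases h.1 with ⟨h2, h3⟩ | ⟨h2, h3⟩
      · simp [h2, h3]
      · simp [h2, h3]
    · rw [ind_of_not h]; omega
  unfold X
  calc ∑ b ∈ B, ∑ c ∈ B, ind (SimpleGraph.edge u v) b c
      ≤ ∑ b ∈ B, ∑ c ∈ B, ((if b = u then (if c = v then 1 else 0) else 0) +
        (if b = v then (if c = u then 1 else 0) else 0)) :=
        Finset.sum_le_sum (fun b _ => Finset.sum_le_sum (fun c _ => h1 b c))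
    _ ≤ 2 := by
        simp only [Finset.sum_add_distrib]
        have key : ∀ s t : V, ∑ b ∈ B, ∑ c ∈ B, (if b = s then (if c = t then 1 else 0) else 0) ≤ 1 := by
          intro s t
          calc ∑ b ∈ B, ∑ c ∈ B, (if b = s then (if c = t then 1 else 0) else 0)
              = ∑ b ∈ B, (if b = s then ∑ c ∈ B, (if c = t then 1 else 0) else 0) := by
                apply Finset.sum_congr rfl; intro b _; split <;> simp
            _ ≤ ∑ b ∈ B, (if b = s then 1 else 0) := by
                apply Finset.sum_le_sum; intro b _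
                split
                · rw [Finset.sum_ite_eq']; split <;> omega
                · omega
            _ ≤ 1 := by rw [Finset.sum_ite_eq']; split <;> omega
        have k1 := key u v
        have k2 := key v u
        omega

theorem X_edge_zero {u v : V} {B : Finset V} (h : ¬ (u ∈ B ∧ v ∈ B)) :
    X (SimpleGraph.edge u v) B B = 0 := by
  unfold X
  apply Finset.sum_eq_zero; intro b hb
  apply Finset.sum_eq_zero; intro c hc
  apply ind_of_not
  intro hadj
  rw [SimpleGraph.edge_adj] at hadj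
  rcases hadj.1 with ⟨h1, h2⟩ | ⟨h1, h2⟩
  · rw [h1] at hb; rw [h2] at hc; exact h ⟨hb, hc⟩
  · rw [h1] at hb; rw [h2] at hc; exact h ⟨hc, hb⟩

variable {F H : SimpleGraph V} {r : V → ℕ} {A : Finset V}

/-- tight sets: the induced forest is a tree -/
def Tight (F : SimpleGraph V) (B : Finset V) : Prop := 2 * B.card ≤ X F B B + 2

theorem tight_of_not_fo {F : SimpleGraph V} {A : Finset V} {u v : V} (hF : Fo F A)
    (h : ¬ Fo (F ⊔ SimpleGraph.edge u v) A) :
    ∃ B ⊆ A, u ∈ B ∧ v ∈ B ∧ Tight F B := by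
  unfold Fo at h
  push Not at h
  obtain ⟨B, hB, hBn, hlt⟩ := h
  have h1 := X_sup_le F (SimpleGraph.edge u v) B B
  have h2 := hF B hB hBn
  have h3 := X_edge_le u v B
  obtain ⟨k, hk⟩ := X_even F B
  by_cases hm : u ∈ B ∧ v ∈ B
  · refine ⟨B, hB, hm.1, hm.2, ?_⟩
    unfold Tight; omega
  · have h4 := X_edge_zero hm
    omega

theorem Tight.union {F : SimpleGraph V} {A B C : Finset V} (hF : Fo F A) (hB : B ⊆ A) (hC : C ⊆ A)
    (tB : Tight F B) (tC : Tight F C) (hne : (B ∩ C).Nonempty) : Tight F (B ∪ C) := by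
  have h1 := X_supermod F B C
  have h2 := hF (B ∩ C) (Finset.inter_subset_left.trans hB) hne
  have h3 := Finset.card_union_add_card_inter B C
  unfold Tight at *
  omega

theorem Ctx.noK5 (c : Ctx F H r A) {Q : Finset V} (hQ : Q ⊆ A) (h5 : Q.card = 5)
    (hcl : ∀ a ∈ Q, ∀ b ∈ Q, a ≠ b → (F ⊔ H).Adj a b)
    (hdeg : ∀ q ∈ Q, X (F ⊔ H) {q} A = 5) : False := by
  classical
  set G := F ⊔ H with hG
  have hQQ : X G Q Q = 20 := by
    have := X_clique G Q hcl
    rw [h5] at this; omega
  have hq4 : ∀ q ∈ Q, X G {q} Q = 4 := by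
    intro q hq
    have hs : ({q} : Finset V) ⊆ Q := Finset.singleton_subset_iff.2 hq
    have e1 := X_split_right G {q} hs
    rw [X_singleton_self] at e1
    have e2 : X G {q} (Q \ {q}) = (Q \ {q}).card := by
      rw [X_singleton_left, Finset.card_eq_sum_ones]
      apply Finset.sum_congr rfl
      intro b hb
      simp only [Finset.mem_sdiff, Finset.mem_singleton] at hb
      exact ind_of_adj (hcl q hq b hb.1 (fun e => hb.2 e.symm))
    rw [Finset.card_sdiff_of_subset hs] at e2
    simp only [Finset.card_singleton] at e2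
    omega
  have hq1 : ∀ q ∈ Q, X G {q} (A \ Q) = 1 := by
    intro q hq
    have e1 := X_split_right G {q} hQ
    have e2 := hq4 q hq
    have e3 := hdeg q hq
    omega
  have hex : ∀ q ∈ Q, ∃ t ∈ A \ Q, G.Adj q t ∧ ∀ t' ∈ A \ Q, G.Adj q t' → t' = t :=
    fun q hq => X_one (hq1 q hq)
  choose! φ hφA hφadj hφu using hex
  have hXout : X G Q (A \ Q) = 5 := by
    rw [X_eq_sum, Finset.sum_congr rfl hq1]; simp [h5]
  have hAA := X_split G hQ
  have hcard : (A \ Q).card + 5 = A.card := by
    rw [Finset.card_sdiff_of_subset hQ]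
    have := Finset.card_le_card hQ
    omega
  -- extension lemma
  have hext : ∀ J ⊆ A \ Q, Ind G J → ∀ q ∈ Q, φ q ∉ J →
      22 * (A \ Q).card ≤ 90 * J.card + X G (A \ Q) (A \ Q) + 2 → False := by
    intro J hJ hJi q hq hφ hle
    have hqJ : q ∉ J := fun h => (Finset.mem_sdiff.1 (hJ h)).2 hq
    apply c.neg
    refine ⟨insert q J, ?_, ?_, ?_⟩
    · intro a ha
      rcases Finset.mem_insert.1 ha with rfl | ha
      · exact hQ hq
      · exact (Finset.mem_sdiff.1 (hJ ha)).1
    · rw [← hG]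
      apply Ind_insert hJi
      intro a ha hadj
      exact hφ (hφu q hq a (hJ ha) hadj ▸ ha)
    · rw [Finset.card_insert_of_notMem hqJ, ← hG]
      omega
  -- generic application of the induction hypothesis to a modified graph
  have hmod : ∀ (F' H' : SimpleGraph V), F ≤ F' → H ≤ H' → Fo F' (A \ Q) → Rk H' r (A \ Q) →
      X (F' ⊔ H') (A \ Q) (A \ Q) ≤ X G (A \ Q) (A \ Q) + 2 →
      ∃ J ⊆ A \ Q, Ind (F' ⊔ H') J ∧ ∀ q ∈ Q, φ q ∈ J := by
    intro F' H' hFF hHH hFo hRk hX
    obtain ⟨J, hJ, hJi, hJc⟩ := c.ih F' H' r (A \ Q) (by omega) hFo hRk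
    refine ⟨J, hJ, hJi, ?_⟩
    intro q hq
    by_contra hn
    refine hext J hJ ?_ q hq hn (by omega)
    intro a ha b hb hadj
    exact hJi a ha b hb (sup_le_sup hFF hHH hadj)
  have hfoQ : Fo F (A \ Q) := c.fo.mono Finset.sdiff_subset
  have hrkQ : Rk H r (A \ Q) := c.rk.mono Finset.sdiff_subset
  obtain ⟨q0, hq0⟩ : Q.Nonempty := Finset.card_pos.1 (by omega)
  set Y := Q.image φ with hY
  have hYn : Y.Nonempty := ⟨φ q0, Finset.mem_image_of_mem φ hq0⟩
  have hYA : Y ⊆ A \ Q := by
    intro y hy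
    obtain ⟨q, hq, rfl⟩ := Finset.mem_image.1 hy
    exact hφA q hq
  obtain ⟨ys, hys, hmin⟩ := Finset.exists_min_image Y r hYn
  have hys' := hYA hys
  -- strict minimality
  have hlt : ∀ y ∈ Y, y ≠ ys → r ys < r y := by
    intro y hy hne
    rcases Nat.lt_or_ge (r ys) (r y) with h | h
    · exact h
    · exfalso
      have h2 := hmin y hy
      have h3 := hrkQ.1 y (hYA hy) ys hys' (le_antisymm h h2)
      exact hne h3
  -- F side: tight sets
  have htight : ∀ y ∈ Y, y ≠ ys → ∃ B ⊆ A \ Q, ys ∈ B ∧ y ∈ B ∧ Tight F B := by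
    intro y hy hne
    apply tight_of_not_fo hfoQ
    intro hFo
    have hX : X ((F ⊔ SimpleGraph.edge ys y) ⊔ H) (A \ Q) (A \ Q) ≤ X G (A \ Q) (A \ Q) + 2 := by
      have e : (F ⊔ SimpleGraph.edge ys y) ⊔ H = G ⊔ SimpleGraph.edge ys y := by
        rw [hG]; rw [sup_assoc, sup_comm (SimpleGraph.edge ys y) H, ← sup_assoc]
      rw [e]
      have h1 := X_sup_le G (SimpleGraph.edge ys y) (A \ Q) (A \ Q)
      have h2 := X_edge_le ys y (A \ Q)
      omega
    obtain ⟨J, hJ, hJi, hall⟩ := hmod _ _ le_sup_left le_rfl hFo hrkQ hX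
    obtain ⟨q1, hq1, e1⟩ := Finset.mem_image.1 hys
    obtain ⟨q2, hq2, e2⟩ := Finset.mem_image.1 hy
    have m1 := hall q1 hq1
    have m2 := hall q2 hq2
    rw [e1] at m1
    rw [e2] at m2
    apply hJi ys m1 y m2
    left; right
    rw [SimpleGraph.edge_adj]
    exact ⟨Or.inl ⟨rfl, rfl⟩, hne.symm⟩
  -- H side
  have hback : ∀ y ∈ Y, y ≠ ys → ∀ q ∈ Q, H.Adj y q → r y < r q := by
    intro y hy hne q hq hadj
    by_contra hcon
    have hyA := Finset.mem_sdiff.1 (hYA hy)
    have hrq : r q < r y := by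
      rcases Nat.lt_or_ge (r q) (r y) with h | h
      · exact h
      · exfalso
        have h3 := c.rk.1 y hyA.1 q (hQ hq) (by omega)
        exact hyA.2 (h3 ▸ hq)
    have hRk : Rk (H ⊔ SimpleGraph.edge ys y) r (A \ Q) := by
      refine Rk.of hrkQ.1 (fun a ha S hS => ?_)
      by_cases hay : a = y
      · rw [hay] at hS
        have h1 : (insert q (S \ {ys})).card ≤ 2 := by
          refine c.rk.le hyA.1 ?_
          intro b hb
          rcases Finset.mem_insert.1 hb with hb | hb
          · rw [hb]; exact ⟨hQ hq, hadj, hrq⟩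
          · rw [Finset.mem_sdiff, Finset.mem_singleton] at hb
            obtain ⟨hb1, hb2, hb3⟩ := hS b hb.1
            refine ⟨(Finset.mem_sdiff.1 hb1).1, ?_, hb3⟩
            rcases hb2 with hb2 | hb2
            · exact hb2
            · exfalso
              rw [SimpleGraph.edge_adj] at hb2
              rcases hb2.1 with ⟨e1, e2⟩ | ⟨e1, e2⟩
              · exact hne e1
              · exact hb.2 e2
        have hnot : q ∉ S \ {ys} := by
          intro h
          exact (Finset.mem_sdiff.1 (hS q (Finset.mem_sdiff.1 h).1).1).2 hq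
        rw [Finset.card_insert_of_notMem hnot] at h1
        have h2 := card_sdiff_one S ys
        omega
      · refine hrkQ.le ha (fun b hb => ?_)
        obtain ⟨hb1, hb2, hb3⟩ := hS b hb
        refine ⟨hb1, ?_, hb3⟩
        rcases hb2 with hb2 | hb2
        · exact hb2
        · exfalso
          rw [SimpleGraph.edge_adj] at hb2
          rcases hb2.1 with ⟨e1, e2⟩ | ⟨e1, e2⟩
          · rw [e1, e2] at hb3
            have := hlt y hy hne
            omega
          · exact hay e1
    have hX : X (F ⊔ (H ⊔ SimpleGraph.edge ys y)) (A \ Q) (A \ Q) ≤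
        X G (A \ Q) (A \ Q) + 2 := by
      rw [← sup_assoc, ← hG]
      have h1 := X_sup_le G (SimpleGraph.edge ys y) (A \ Q) (A \ Q)
      have h2 := X_edge_le ys y (A \ Q)
      omega
    obtain ⟨J, hJ, hJi, hall⟩ := hmod _ _ le_rfl le_sup_left hfoQ hRk hX
    obtain ⟨q1, hq1, e1⟩ := Finset.mem_image.1 hys
    obtain ⟨q2, hq2, e2⟩ := Finset.mem_image.1 hy
    have m1 := hall q1 hq1
    have m2 := hall q2 hq2
    rw [e1] at m1
    rw [e2] at m2
    apply hJi ys m1 y m2
    right; right
    rw [SimpleGraph.edge_adj]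
    exact ⟨Or.inl ⟨rfl, rfl⟩, hne.symm⟩
  -- maximal tight set
  have hmax : ∃ B ⊆ A \ Q, ys ∈ B ∧ Tight F B ∧ ∀ y ∈ Y, y ∈ B := by
    set 𝓑 := (A \ Q).powerset.filter (fun B => ys ∈ B ∧ Tight F B) with h𝓑
    have hne : 𝓑.Nonempty := by
      refine ⟨{ys}, ?_⟩
      rw [h𝓑, Finset.mem_filter, Finset.mem_powerset]
      refine ⟨Finset.singleton_subset_iff.2 hys', by simp, ?_⟩
      unfold Tight; simp
    obtain ⟨B, hB, hBmax⟩ := Finset.exists_max_image 𝓑 Finset.card hne
    rw [h𝓑, Finset.mem_filter, Finset.mem_powerset] at hB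
    refine ⟨B, hB.1, hB.2.1, hB.2.2, ?_⟩
    intro y hy
    by_cases hyy : y = ys
    · rw [hyy]; exact hB.2.1
    · obtain ⟨C, hC, h1, h2, h3⟩ := htight y hy hyy
      have hU : Tight F (B ∪ C) := Tight.union hfoQ hB.1 hC hB.2.2 h3
        ⟨ys, Finset.mem_inter.2 ⟨hB.2.1, h1⟩⟩
      have hUm : B ∪ C ∈ 𝓑 := by
        rw [h𝓑, Finset.mem_filter, Finset.mem_powerset]
        exact ⟨Finset.union_subset hB.1 hC, Finset.mem_union_left _ hB.2.1, hU⟩
      have h4 := hBmax (B ∪ C) hUm
      have h5 := Finset.eq_of_subset_of_card_le (Finset.subset_union_left (s₁ := B) (s₂ := C)) h4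
      rw [h5]
      exact Finset.mem_union_right _ h2
  obtain ⟨B, hB, hysB, htB, hYB⟩ := hmax
  have hφB : ∀ q ∈ Q, φ q ∈ B := fun q hq => hYB _ (Finset.mem_image_of_mem φ hq)
  -- F count
  have hdisj : Disjoint B Q := by
    rw [Finset.disjoint_left]; intro b hb hbq
    exact (Finset.mem_sdiff.1 (hB hb)).2 hbq
  have hFcount := c.fo (B ∪ Q) (Finset.union_subset (hB.trans Finset.sdiff_subset) hQ)
    ⟨ys, Finset.mem_union_left _ hysB⟩
  rw [X_union F hdisj, Finset.card_union_of_disjoint hdisj, h5, X_comm F B Q] at hFcount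
  have hf : ∑ q ∈ Q, ind F q (φ q) ≤ X F Q B := by
    unfold X
    apply Finset.sum_le_sum
    intro q hq
    exact Finset.single_le_sum (f := fun c => ind F q c) (fun _ _ => Nat.zero_le _) (hφB q hq)
  unfold Tight at htB
  -- H count
  have hysQ : ys ∉ Q := (Finset.mem_sdiff.1 hys').2
  set T : SimpleGraph V := SimpleGraph.fromRel
    (fun a b => (a ∈ Q ∧ b ∈ Q ∧ H.Adj a b) ∨ (a ∈ Q ∧ b = ys ∧ H.Adj a (φ a))) with hT
  have hTQQ : ∀ a ∈ Q, ∀ b ∈ Q, (T.Adj a b ↔ H.Adj a b) := by
    intro a ha b hb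
    rw [hT, SimpleGraph.fromRel_adj]
    constructor
    · rintro ⟨hne, (⟨_, _, h⟩ | ⟨_, h, _⟩) | (⟨_, _, h⟩ | ⟨_, h, _⟩)⟩
      · exact h
      · exact absurd (h ▸ hb) hysQ
      · exact h.symm
      · exact absurd (h ▸ ha) hysQ
    · intro h
      exact ⟨h.ne, Or.inl (Or.inl ⟨ha, hb, h⟩)⟩
  have hTQy : ∀ a ∈ Q, (T.Adj a ys ↔ H.Adj a (φ a)) := by
    intro a ha
    rw [hT, SimpleGraph.fromRel_adj]
    constructor
    · rintro ⟨hne, (⟨_, h, _⟩ | ⟨_, _, h⟩) | (⟨h, _, _⟩ | ⟨h, _, _⟩)⟩
      · exact absurd h hysQ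
      · exact h
      · exact absurd h hysQ
      · exact absurd h hysQ
    · intro h
      refine ⟨?_, Or.inl (Or.inr ⟨ha, rfl, h⟩)⟩
      rintro rfl
      exact hysQ ha
  have hins : insert ys Q ⊆ A := by
    intro a ha
    rcases Finset.mem_insert.1 ha with rfl | ha
    · exact (Finset.mem_sdiff.1 hys').1
    · exact hQ ha
  have hTRk : Rk T r (insert ys Q) := by
    refine Rk.of (fun a ha b hb => c.rk.1 a (hins ha) b (hins hb)) ?_
    intro a ha S hS
    rcases Finset.mem_insert.1 ha with hay | ha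
    · -- a = ys
      rw [hay] at hS
      refine c.rk.le (Finset.mem_sdiff.1 hys').1 (fun b hb => ?_)
      obtain ⟨hb1, hb2, hb3⟩ := hS b hb
      rcases Finset.mem_insert.1 hb1 with hb1 | hb1
      · rw [hb1] at hb3; omega
      · have h1 := (hTQy b hb1).1 hb2.symm
        have h2 : φ b = ys := by
          by_contra hne
          have h3 := hback (φ b) (Finset.mem_image_of_mem φ hb1) hne b hb1 h1.symm
          have h4 := hmin (φ b) (Finset.mem_image_of_mem φ hb1)
          omega
        rw [h2] at h1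
        exact ⟨hQ hb1, h1.symm, hb3⟩
    · -- a ∈ Q
      have hφ1 : φ a ∉ Q := (Finset.mem_sdiff.1 (hφA a ha)).2
      by_cases hHa : H.Adj a (φ a) ∧ r ys < r a
      · have h6 : r (φ a) < r a := by
          by_cases hne : φ a = ys
          · rw [hne]; exact hHa.2
          · exact hback (φ a) (Finset.mem_image_of_mem φ ha) hne a ha hHa.1.symm
        have h7 : (insert (φ a) (S \ {ys})).card ≤ 2 := by
          refine c.rk.le (hQ ha) (fun b hb => ?_)
          rcases Finset.mem_insert.1 hb with hb | hb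
          · rw [hb]; exact ⟨(Finset.mem_sdiff.1 (hφA a ha)).1, hHa.1, h6⟩
          · rw [Finset.mem_sdiff, Finset.mem_singleton] at hb
            obtain ⟨hb1, hb2, hb3⟩ := hS b hb.1
            rcases Finset.mem_insert.1 hb1 with hb1 | hb1
            · exact absurd hb1 hb.2
            · exact ⟨hQ hb1, (hTQQ a ha b hb1).1 hb2, hb3⟩
        have hnm : φ a ∉ S \ {ys} := by
          intro h
          rw [Finset.mem_sdiff, Finset.mem_singleton] at h
          rcases Finset.mem_insert.1 (hS (φ a) h.1).1 with h' | h'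
          · exact h.2 h'
          · exact hφ1 h'
        rw [Finset.card_insert_of_notMem hnm] at h7
        have h9 := card_sdiff_one S ys
        omega
      · refine c.rk.le (hQ ha) (fun b hb => ?_)
        obtain ⟨hb1, hb2, hb3⟩ := hS b hb
        rcases Finset.mem_insert.1 hb1 with hb1 | hb1
        · rw [hb1] at hb2 hb3
          exact absurd ⟨(hTQy a ha).1 hb2, hb3⟩ hHa
        · exact ⟨hQ hb1, (hTQQ a ha b hb1).1 hb2, hb3⟩
  have hcard6 : (insert ys Q).card = 6 := by
    rw [Finset.card_insert_of_notMem hysQ]; omega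
  have hHcount := hTRk.edges (by omega)
  rw [hcard6] at hHcount
  have hd2 : Disjoint ({ys} : Finset V) Q := by
    rw [Finset.disjoint_singleton_left]; exact hysQ
  have e1 : insert ys Q = {ys} ∪ Q := by ext; simp
  rw [e1, X_union T hd2, X_singleton_self, X_comm T {ys} Q] at hHcount
  have e2 : X T Q Q = X H Q Q := by
    unfold X
    apply Finset.sum_congr rfl; intro a ha
    apply Finset.sum_congr rfl; intro b hb
    by_cases h : H.Adj a b
    · rw [ind_of_adj h, ind_of_adj ((hTQQ a ha b hb).2 h)]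
    · rw [ind_of_not h, ind_of_not (fun h' => h ((hTQQ a ha b hb).1 h'))]
  have e3 : X T Q {ys} = ∑ q ∈ Q, ind H q (φ q) := by
    unfold X
    apply Finset.sum_congr rfl; intro a ha
    rw [Finset.sum_singleton]
    by_cases h : H.Adj a (φ a)
    · rw [ind_of_adj h, ind_of_adj ((hTQy a ha).2 h)]
    · rw [ind_of_not h, ind_of_not (fun h' => h ((hTQy a ha).1 h'))]
  rw [e2, e3] at hHcount
  have e4 := X_sup_le F H Q Q
  rw [← hG, hQQ] at e4
  have e5 : 5 ≤ ∑ q ∈ Q, ind F q (φ q) + ∑ q ∈ Q, ind H q (φ q) := by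
    rw [← Finset.sum_add_distrib]
    calc 5 = ∑ q ∈ Q, 1 := by simp [h5]
      _ ≤ ∑ q ∈ Q, (ind F q (φ q) + ind H q (φ q)) := by
        apply Finset.sum_le_sum
        intro q hq
        have h1 := ind_sup_le F H q (φ q)
        rw [← hG, ind_of_adj (hφadj q hq)] at h1
        exact h1
  omega

end Pool.Agent.Helper97.Tarsi
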