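import Pool.Agent.Helper97.Tarsi.K5

set_option autoImplicit false
set_option linter.unusedSectionVars false

/-! A vertex of degree five whose neighbourhood misses exactly one edge. -/

namespace Pool.Agent.Helper97.Tarsi

open Finset

variable {V : Type*} [DecidableEq V]

/-- `y` merged into `x` -/
def mrg (K : SimpleGraph V) (x y : V) : SimpleGraph V :=
  SimpleGraph.fromRel (fun a b => K.Adj a b ∨ (a = x ∧ K.Adj y b))

theorem mrg_adj {K : SimpleGraph V} {x y a b : V} :
    (mrg K x y).Adj a b ↔ a ≠ b ∧ (K.Adj a b ∨ (a = x ∧ K.Adj y b) ∨ (b = x ∧ K.Adj y a)) := by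
  unfold mrg
  rw [SimpleGraph.fromRel_adj]
  constructor
  · rintro ⟨h, (h1 | h1) | (h1 | h1)⟩
    · exact ⟨h, Or.inl h1⟩
    · exact ⟨h, Or.inr (Or.inl h1)⟩
    · exact ⟨h, Or.inl h1.symm⟩
    · exact ⟨h, Or.inr (Or.inr h1)⟩
  · rintro ⟨h, h1 | h1 | h1⟩
    · exact ⟨h, Or.inl (Or.inl h1)⟩
    · exact ⟨h, Or.inl (Or.inr h1)⟩
    · exact ⟨h, Or.inr (Or.inr h1)⟩

theorem X_mrg_out (K : SimpleGraph V) {x y : V} {C : Finset V} (hx : x ∉ C) :
    X (mrg K x y) C C = X K C C := by
  unfold X
  apply Finset.sum_congr rfl; intro a ha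
  apply Finset.sum_congr rfl; intro b hb
  have hax : a ≠ x := fun e => hx (e ▸ ha)
  have hbx : b ≠ x := fun e => hx (e ▸ hb)
  by_cases h : K.Adj a b
  · rw [ind_of_adj h, ind_of_adj (mrg_adj.2 ⟨h.ne, Or.inl h⟩)]
  · rw [ind_of_not h, ind_of_not]
    intro h'
    rcases (mrg_adj.1 h').2 with h1 | h1 | h1
    · exact h h1
    · exact hax h1.1
    · exact hbx h1.1

theorem X_mrg_x (K : SimpleGraph V) {x y : V} {C : Finset V} (hx : x ∉ C) :
    X (mrg K x y) {x} C ≤ X K {x} C + X K {y} C := by
  rw [X_singleton_left, X_singleton_left, X_singleton_left, ← Finset.sum_add_distrib]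
  apply Finset.sum_le_sum; intro b hb
  have hbx : b ≠ x := fun e => hx (e ▸ hb)
  by_cases h : (mrg K x y).Adj x b
  · rw [ind_of_adj h]
    rcases (mrg_adj.1 h).2 with h1 | h1 | h1
    · rw [ind_of_adj h1]; omega
    · rw [ind_of_adj h1.2]; omega
    · exact absurd h1.1 hbx
  · rw [ind_of_not h]; omega

/-- counting in the merged graph -/
theorem X_mrg_le (K : SimpleGraph V) {x y : V} {C : Finset V} (hx : x ∉ C) :
    X (mrg K x y) ({x} ∪ C) ({x} ∪ C) ≤ X K C C + 2 * X K {x} C + 2 * X K {y} C := by
  have hd : Disjoint ({x} : Finset V) C := Finset.disjoint_singleton_left.2 hx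
  rw [X_union _ hd, X_singleton_self, X_mrg_out K hx]
  have := X_mrg_x K (y := y) hx
  omega

theorem mrg_sup (F H : SimpleGraph V) (x y : V) : mrg F x y ⊔ mrg H x y = mrg (F ⊔ H) x y := by
  ext a b
  rw [SimpleGraph.sup_adj, mrg_adj, mrg_adj, mrg_adj, SimpleGraph.sup_adj, SimpleGraph.sup_adj,
    SimpleGraph.sup_adj]
  tauto

/-- counting in the original graph -/
theorem X_two_ge (K : SimpleGraph V) {x y : V} {C Q : Finset V} (hd : Disjoint C Q) (hx : x ∈ Q)
    (hy : y ∈ Q) (hxy : x ≠ y) :
    X K C C + 2 * X K {x} C + 2 * X K {y} C + X K Q Q ≤ X K (C ∪ Q) (C ∪ Q) := by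
  rw [X_union K hd, X_comm K C Q]
  have h1 : X K {x} C + X K {y} C ≤ X K Q C := by
    have hd2 : Disjoint ({x} : Finset V) {y} := by
      rw [Finset.disjoint_singleton_left, Finset.mem_singleton]; exact hxy
    rw [← X_union_left K C hd2]
    apply X_mono _ (Finset.Subset.refl _)
    intro a ha
    rcases Finset.mem_union.1 ha with h | h
    · rw [Finset.mem_singleton.1 h]; exact hx
    · rw [Finset.mem_singleton.1 h]; exact hy
  omega

variable {F H : SimpleGraph V} {r : V → ℕ} {A : Finset V}

theorem Ctx.noK6m (c : Ctx F H r A) {Q : Finset V} (hQ : Q ⊆ A) (h6 : Q.card = 6) {v x y : V}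
    (hv : v ∈ Q) (hx : x ∈ Q) (hy : y ∈ Q) (hxy : x ≠ y) (hnadj : ¬ (F ⊔ H).Adj x y)
    (hcl : ∀ a ∈ Q, ∀ b ∈ Q, a ≠ b → ¬ (a = x ∧ b = y) → ¬ (a = y ∧ b = x) → (F ⊔ H).Adj a b)
    (hvN : ∀ t ∈ A, (F ⊔ H).Adj v t → t ∈ Q) (hr : r x < r y) : False := by
  classical
  set G := F ⊔ H with hG
  have hcomp : X (G ⊔ SimpleGraph.edge x y) Q Q = 30 := by
    have := X_clique (G ⊔ SimpleGraph.edge x y) Q (by
      intro a ha b hb hab
      by_cases h1 : a = x ∧ b = y
      · right; rw [SimpleGraph.edge_adj]; exact ⟨Or.inl h1, hab⟩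
      · by_cases h2 : a = y ∧ b = x
        · right; rw [SimpleGraph.edge_adj]; exact ⟨Or.inr h2, hab⟩
        · left; exact hcl a ha b hb hab h1 h2)
    rw [h6] at this; omega
  have hGQ : 28 ≤ X G Q Q := by
    have h1 := X_sup_le G (SimpleGraph.edge x y) Q Q
    have h2 := X_edge_le x y Q
    omega
  have hFQ := c.fo Q hQ ⟨x, hx⟩
  have hHQ := (c.rk.mono hQ).edges (by omega)
  have hsQ := X_sup_le F H Q Q
  rw [← hG] at hsQ
  rw [h6] at hFQ hHQ
  have hFQ10 : 10 ≤ X F Q Q := by omega
  -- claim A
  have hA : ∀ t ∈ A \ Q, H.Adj y t → r y < r t := by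
    intro t ht hadj
    have ht' := Finset.mem_sdiff.1 ht
    by_contra hcon
    have hlt : r t < r y := by
      rcases Nat.lt_or_ge (r t) (r y) with h | h
      · exact h
      · exfalso
        have h3 := c.rk.1 t ht'.1 y (hQ hy) (by omega)
        exact ht'.2 (h3 ▸ hy)
    have hRk : Rk (H ⊔ SimpleGraph.edge x y) r Q := by
      refine Rk.of (fun a ha b hb => c.rk.1 a (hQ ha) b (hQ hb)) (fun a ha S hS => ?_)
      by_cases hay : a = y
      · rw [hay] at hS
        have h1 : (insert t (S \ {x})).card ≤ 2 := by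
          refine c.rk.le (hQ hy) ?_
          intro b hb
          rcases Finset.mem_insert.1 hb with hb | hb
          · rw [hb]; exact ⟨ht'.1, hadj, hlt⟩
          · rw [Finset.mem_sdiff, Finset.mem_singleton] at hb
            obtain ⟨hb1, hb2, hb3⟩ := hS b hb.1
            refine ⟨hQ hb1, ?_, hb3⟩
            rcases hb2 with hb2 | hb2
            · exact hb2
            · exfalso
              rw [SimpleGraph.edge_adj] at hb2
              rcases hb2.1 with ⟨e1, e2⟩ | ⟨e1, e2⟩
              · exact hxy e1.symm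
              · exact hb.2 e2
        have hnot : t ∉ S \ {x} := by
          intro h
          exact ht'.2 (hS t (Finset.mem_sdiff.1 h).1).1
        rw [Finset.card_insert_of_notMem hnot] at h1
        have h2 := card_sdiff_one S x
        omega
      · refine c.rk.le (hQ ha) (fun b hb => ?_)
        obtain ⟨hb1, hb2, hb3⟩ := hS b hb
        refine ⟨hQ hb1, ?_, hb3⟩
        rcases hb2 with hb2 | hb2
        · exact hb2
        · exfalso
          rw [SimpleGraph.edge_adj] at hb2
          rcases hb2.1 with ⟨e1, e2⟩ | ⟨e1, e2⟩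
          · rw [e1, e2] at hb3; omega
          · exact hay e1
    have h1 := hRk.edges (by omega)
    have h2 := X_sup_le F (H ⊔ SimpleGraph.edge x y) Q Q
    rw [← sup_assoc, ← hG] at h2
    omega
  have hxC : x ∉ A \ Q := fun h => (Finset.mem_sdiff.1 h).2 hx
  have hA'sub : ({x} ∪ (A \ Q) : Finset V) ⊆ A := by
    intro a ha
    rcases Finset.mem_union.1 ha with h | h
    · rw [Finset.mem_singleton.1 h]; exact hQ hx
    · exact (Finset.mem_sdiff.1 h).1
  -- the forest side
  have hFo : Fo (mrg F x y) ({x} ∪ (A \ Q)) := by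
    intro B hB hBn
    by_cases hxB : x ∈ B
    · have hC : B \ {x} ⊆ A \ Q := by
        intro a ha
        rw [Finset.mem_sdiff, Finset.mem_singleton] at ha
        rcases Finset.mem_union.1 (hB ha.1) with h | h
        · exact absurd (Finset.mem_singleton.1 h) ha.2
        · exact h
      have e : B = {x} ∪ (B \ {x}) := by
        rw [Finset.union_sdiff_of_subset (Finset.singleton_subset_iff.2 hxB)]
      have hxn : x ∉ B \ {x} := by simp
      have h1 := X_mrg_le F (y := y) hxn
      rw [← e] at h1
      have hd : Disjoint (B \ {x}) Q := by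
        rw [Finset.disjoint_left]; intro a ha haq
        exact (Finset.mem_sdiff.1 (hC ha)).2 haq
      have h2 := X_two_ge F hd hx hy hxy
      have h3 := c.fo (B \ {x} ∪ Q) (Finset.union_subset (hC.trans Finset.sdiff_subset) hQ)
        ⟨x, Finset.mem_union_right _ hx⟩
      rw [Finset.card_union_of_disjoint hd, h6] at h3
      have h4 : (B \ {x}).card + 1 = B.card := by
        rw [Finset.card_sdiff_of_subset (Finset.singleton_subset_iff.2 hxB)]
        have := Finset.card_pos.2 ⟨x, hxB⟩
        simp; omega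
      omega
    · have hBQ : B ⊆ A := by
        intro a ha; exact hA'sub (hB ha)
      rw [X_mrg_out F hxB]
      exact c.fo B hBQ hBn
  -- the ranked side
  have hRk : Rk (mrg H x y) r ({x} ∪ (A \ Q)) := by
    refine Rk.of (fun a ha b hb => c.rk.1 a (hA'sub ha) b (hA'sub hb)) (fun a ha S hS => ?_)
    by_cases hax : a = x
    · rw [hax] at hS
      refine c.rk.le (hQ hx) (fun b hb => ?_)
      obtain ⟨hb1, hb2, hb3⟩ := hS b hb
      refine ⟨hA'sub hb1, ?_, hb3⟩
      rw [mrg_adj] at hb2
      rcases hb2.2 with h | h | h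
      · exact h
      · exfalso
        rcases Finset.mem_union.1 hb1 with h' | h'
        · exact hb2.1 (Finset.mem_singleton.1 h').symm
        · have := hA b h' h.2
          omega
      · exact absurd h.1.symm hb2.1
    · have haC : a ∈ A \ Q := by
        rcases Finset.mem_union.1 ha with h | h
        · exact absurd (Finset.mem_singleton.1 h) hax
        · exact h
      have haA := (Finset.mem_sdiff.1 haC).1
      by_cases hcase : x ∈ S ∧ ¬ H.Adj a x
      · have hya : H.Adj y a := by
          obtain ⟨_, hb2, _⟩ := hS x hcase.1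
          rw [mrg_adj] at hb2
          rcases hb2.2 with h | h | h
          · exact absurd h hcase.2
          · exact absurd h.1 hax
          · exact h.2
        have h1 : (insert y (S \ {x})).card ≤ 2 := by
          refine c.rk.le haA (fun b hb => ?_)
          rcases Finset.mem_insert.1 hb with hb | hb
          · rw [hb]; exact ⟨hQ hy, hya.symm, hA a haC hya⟩
          · rw [Finset.mem_sdiff, Finset.mem_singleton] at hb
            obtain ⟨hb1, hb2, hb3⟩ := hS b hb.1
            refine ⟨hA'sub hb1, ?_, hb3⟩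
            rw [mrg_adj] at hb2
            rcases hb2.2 with h | h | h
            · exact h
            · exact absurd h.1 hax
            · exact absurd h.1 hb.2
        have hnot : y ∉ S \ {x} := by
          intro h
          rw [Finset.mem_sdiff, Finset.mem_singleton] at h
          rcases Finset.mem_union.1 (hS y h.1).1 with h' | h'
          · exact h.2 (Finset.mem_singleton.1 h')
          · exact (Finset.mem_sdiff.1 h').2 hy
        rw [Finset.card_insert_of_notMem hnot] at h1
        have h2 := card_sdiff_one S x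
        omega
      · refine c.rk.le haA (fun b hb => ?_)
        obtain ⟨hb1, hb2, hb3⟩ := hS b hb
        refine ⟨hA'sub hb1, ?_, hb3⟩
        rw [mrg_adj] at hb2
        rcases hb2.2 with h | h | h
        · exact h
        · exact absurd h.1 hax
        · by_contra hn
          rw [h.1] at hb hn
          exact hcase ⟨hb, hn⟩
  have hcard : ({x} ∪ (A \ Q) : Finset V).card + 5 = A.card := by
    rw [Finset.card_union_of_disjoint (Finset.disjoint_singleton_left.2 hxC),
      Finset.card_sdiff_of_subset hQ, Finset.card_singleton, h6]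
    have := Finset.card_le_card hQ
    omega
  obtain ⟨J, hJ, hJi, hJc⟩ := c.ih (mrg F x y) (mrg H x y) r ({x} ∪ (A \ Q)) (by omega) hFo hRk
  rw [mrg_sup, ← hG] at hJi hJc
  have e1 := X_mrg_le G (y := y) hxC
  have hdis : Disjoint (A \ Q) Q := Finset.sdiff_disjoint
  have e2 := X_two_ge G hdis hx hy hxy
  rw [Finset.sdiff_union_of_subset hQ] at e2
  have hyJ : y ∉ J := by
    intro h
    rcases Finset.mem_union.1 (hJ h) with h' | h'
    · exact hxy (Finset.mem_singleton.1 h').symm
    · exact (Finset.mem_sdiff.1 h').2 hy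
  have hJG : Ind G J := by
    intro a ha b hb hadj
    exact hJi a ha b hb (mrg_adj.2 ⟨hadj.ne, Or.inl hadj⟩)
  by_cases hxJ : x ∈ J
  · apply c.neg
    refine ⟨insert y J, ?_, ?_, ?_⟩
    · intro a ha
      rcases Finset.mem_insert.1 ha with h | h
      · rw [h]; exact hQ hy
      · exact hA'sub (hJ h)
    · rw [← hG]
      apply Ind_insert hJG
      intro a ha hadj
      by_cases hax : a = x
      · rw [hax] at hadj; exact hnadj hadj.symm
      · exact hJi x hxJ a ha (mrg_adj.2 ⟨fun e => hax e.symm, Or.inr (Or.inl ⟨rfl, hadj⟩)⟩)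
    · rw [Finset.card_insert_of_notMem hyJ, ← hG]
      omega
  · have hJC : J ⊆ A \ Q := by
      intro a ha
      rcases Finset.mem_union.1 (hJ ha) with h | h
      · rw [Finset.mem_singleton.1 h] at ha; exact absurd ha hxJ
      · exact h
    have hvJ : v ∉ J := fun h => (Finset.mem_sdiff.1 (hJC h)).2 hv
    apply c.neg
    refine ⟨insert v J, ?_, ?_, ?_⟩
    · intro a ha
      rcases Finset.mem_insert.1 ha with h | h
      · rw [h]; exact hQ hv
      · exact hA'sub (hJ h)
    · rw [← hG]
      apply Ind_insert hJG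
      intro a ha hadj
      have h1 := Finset.mem_sdiff.1 (hJC ha)
      exact h1.2 (hvN a h1.1 hadj)
    · rw [Finset.card_insert_of_notMem hvJ, ← hG]
      omega

end Pool.Agent.Helper97.Tarsi
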