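import Pool.Agent.Helper97.Tarsi.Pair

set_option autoImplicit false
set_option linter.unusedSectionVars false

/-! The inequality for every finite set of vertices. -/

namespace Pool.Agent.Helper97.Tarsi

open Finset

variable {V : Type*} [DecidableEq V]

theorem X_six {G : SimpleGraph V} {v x y a b d : V} (p : V) (h1 : v ≠ x) (h2 : v ≠ y) (h3 : v ≠ a)
    (h4 : v ≠ b) (h5 : v ≠ d) (h6 : x ≠ y) (h7 : x ≠ a) (h8 : x ≠ b) (h9 : x ≠ d) (h10 : y ≠ a)
    (h11 : y ≠ b) (h12 : y ≠ d) (h13 : a ≠ b) (h14 : a ≠ d) (h15 : b ≠ d) :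
    X G {p} {v, x, y, a, b, d} =
      ind G p v + ind G p x + ind G p y + ind G p a + ind G p b + ind G p d := by
  rw [X_singleton_left, Finset.sum_insert (by simp [h1, h2, h3, h4, h5]),
    Finset.sum_insert (by simp [h6, h7, h8, h9]), Finset.sum_insert (by simp [h10, h11, h12]),
    Finset.sum_insert (by simp [h13, h14]), Finset.sum_insert (by simp [h15]),
    Finset.sum_singleton]
  omega

theorem X_six_left {G : SimpleGraph V} {v x y a b d : V} (C : Finset V) (h1 : v ≠ x) (h2 : v ≠ y)
    (h3 : v ≠ a)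
    (h4 : v ≠ b) (h5 : v ≠ d) (h6 : x ≠ y) (h7 : x ≠ a) (h8 : x ≠ b) (h9 : x ≠ d) (h10 : y ≠ a)
    (h11 : y ≠ b) (h12 : y ≠ d) (h13 : a ≠ b) (h14 : a ≠ d) (h15 : b ≠ d) :
    X G {v, x, y, a, b, d} C =
      X G {v} C + X G {x} C + X G {y} C + X G {a} C + X G {b} C + X G {d} C := by
  rw [X_eq_sum, Finset.sum_insert (by simp [h1, h2, h3, h4, h5]),
    Finset.sum_insert (by simp [h6, h7, h8, h9]), Finset.sum_insert (by simp [h10, h11, h12]),
    Finset.sum_insert (by simp [h13, h14]), Finset.sum_insert (by simp [h15]),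
    Finset.sum_singleton]
  omega

variable {F H : SimpleGraph V} {r : V → ℕ} {A : Finset V}

/-- a clique of five vertices of degree five, given by its elements -/
theorem Ctx.five (c : Ctx F H r A) {v x a b d : V} (hv : v ∈ A) (hx : x ∈ A) (ha : a ∈ A)
    (hb : b ∈ A) (hd : d ∈ A) (e1 : (F ⊔ H).Adj v x) (e2 : (F ⊔ H).Adj v a)
    (e3 : (F ⊔ H).Adj v b) (e4 : (F ⊔ H).Adj v d) (e5 : (F ⊔ H).Adj x a)
    (e6 : (F ⊔ H).Adj x b) (e7 : (F ⊔ H).Adj x d) (e8 : (F ⊔ H).Adj a b)
    (e9 : (F ⊔ H).Adj a d) (e10 : (F ⊔ H).Adj b d)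
    (d1 : X (F ⊔ H) {v} A = 5) (d2 : X (F ⊔ H) {x} A = 5) (d3 : X (F ⊔ H) {a} A = 5)
    (d4 : X (F ⊔ H) {b} A = 5) (d5 : X (F ⊔ H) {d} A = 5) : False := by
  refine c.noK5 (Q := {v, x, a, b, d}) ?_ ?_ ?_ ?_
  · intro p hp
    simp only [Finset.mem_insert, Finset.mem_singleton] at hp
    rcases hp with h | h | h | h | h <;> rw [h] <;> assumption
  · rw [Finset.card_insert_of_notMem (by simp [e1.ne, e2.ne, e3.ne, e4.ne]),
      Finset.card_insert_of_notMem (by simp [e5.ne, e6.ne, e7.ne]),
      Finset.card_insert_of_notMem (by simp [e8.ne, e9.ne]),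
      Finset.card_insert_of_notMem (by simp [e10.ne]), Finset.card_singleton]
  · intro p hp q hq hpq
    simp only [Finset.mem_insert, Finset.mem_singleton] at hp hq
    rcases hp with rfl | rfl | rfl | rfl | rfl <;> rcases hq with rfl | rfl | rfl | rfl | rfl <;>
      first
        | exact absurd rfl hpq
        | assumption
        | (apply SimpleGraph.Adj.symm; assumption)
  · intro q hq
    simp only [Finset.mem_insert, Finset.mem_singleton] at hq
    rcases hq with h | h | h | h | h <;> rw [h] <;> assumption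

/-- the neighbourhood of a vertex of degree five -/
theorem Ctx.star (c : Ctx F H r A) {k : ℕ} (hk : 4 ≤ k) {v : V} (hv : v ∈ A)
    (hd : X (F ⊔ H) {v} A = 5)
    (hs : X (F ⊔ H) (Nb (F ⊔ H) A {v}) (Nb (F ⊔ H) A {v}) +
      2 * X (F ⊔ H) (Nb (F ⊔ H) A {v}) (A \ Nb (F ⊔ H) A {v}) ≤ 2 * k + 30)
    (hp : ∀ p ∈ Nb (F ⊔ H) A {v}, ∀ q ∈ Nb (F ⊔ H) A {v}, p ≠ q → ¬ (F ⊔ H).Adj p q →
      k + 1 ≤ X (F ⊔ H) {p} (A \ Nb (F ⊔ H) A {v}) + X (F ⊔ H) {q} (A \ Nb (F ⊔ H) A {v})) :
    False := by
  set G := F ⊔ H with hG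
  have hQc : (Nb G A {v}).card = 6 := by rw [Nb_singleton_card G hv, hd]
  have hQA : Nb G A {v} ⊆ A := Nb_sub G A {v}
  have hvQ : v ∈ Nb G A {v} := mem_Nb.2 ⟨hv, Or.inl (Finset.mem_singleton_self v)⟩
  have hvadj : ∀ t ∈ Nb G A {v}, v ≠ t → G.Adj v t := by
    intro t ht hne
    rcases (mem_Nb.1 ht).2 with h | ⟨s, hs, h⟩
    · exact absurd (Finset.mem_singleton.1 h).symm hne
    · rw [Finset.mem_singleton.1 hs] at h; exact h
  have hvN : ∀ t ∈ A, G.Adj v t → t ∈ Nb G A {v} := fun t ht h =>
    mem_Nb.2 ⟨ht, Or.inr ⟨v, Finset.mem_singleton_self v, h⟩⟩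
  generalize hQdef : Nb G A {v} = Q at *
  -- a missing pair
  have hex : ∃ x ∈ Q, ∃ y ∈ Q, x ≠ y ∧ ¬ G.Adj x y := by
    by_contra hcon
    push Not at hcon
    have h1 := X_clique G Q hcon
    have h2 := edges_union (c.fo.mono hQA) (c.rk.mono hQA) (by omega)
    rw [← hG, hQc] at h2
    rw [hQc] at h1
    omega
  obtain ⟨x, hx, y, hy, hxy, hnxy⟩ := hex
  have hvx : v ≠ x := by
    intro h
    rw [← h] at hnxy hxy
    exact hnxy (hvadj y hy hxy)
  have hvy : v ≠ y := by
    intro h
    rw [← h] at hnxy hxy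
    exact hnxy (hvadj x hx hxy.symm).symm
  -- the other three
  have h3 : (Q \ {v, x, y}).card = 3 := by
    have hsub : ({v, x, y} : Finset V) ⊆ Q := by
      intro t ht
      simp only [Finset.mem_insert, Finset.mem_singleton] at ht
      rcases ht with h | h | h <;> rw [h] <;> assumption
    rw [Finset.card_sdiff_of_subset hsub, Finset.card_insert_of_notMem (by simp [hvx, hvy]),
      Finset.card_pair hxy]
    omega
  obtain ⟨a, b, d, hab, had, hbd, habd⟩ := Finset.card_eq_three.1 h3
  have hmem : ∀ t ∈ ({a, b, d} : Finset V), t ∈ Q ∧ t ≠ v ∧ t ≠ x ∧ t ≠ y := by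
    intro t ht
    rw [← habd] at ht
    simp only [Finset.mem_sdiff, Finset.mem_insert, Finset.mem_singleton, not_or] at ht
    exact ht
  obtain ⟨haQ, hav, hax, hay⟩ := hmem a (by simp)
  obtain ⟨hbQ, hbv, hbx, hby⟩ := hmem b (by simp)
  obtain ⟨hdQ, hdv, hdx, hdy⟩ := hmem d (by simp)
  have hQe : Q = {v, x, y, a, b, d} := by
    symm
    apply Finset.eq_of_subset_of_card_le
    · intro t ht
      simp only [Finset.mem_insert, Finset.mem_singleton] at ht
      rcases ht with h | h | h | h | h | h <;> rw [h] <;> assumption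
    · rw [hQc, Finset.card_insert_of_notMem (by simp [hvx, hvy, hav.symm, hbv.symm, hdv.symm]),
        Finset.card_insert_of_notMem (by simp [hxy, hax.symm, hbx.symm, hdx.symm]),
        Finset.card_insert_of_notMem (by simp [hay.symm, hby.symm, hdy.symm]),
        Finset.card_insert_of_notMem (by simp [hab, had]),
        Finset.card_insert_of_notMem (by simp [hbd]), Finset.card_singleton]
  have hrow : ∀ p : V, X G {p} Q =
      ind G p v + ind G p x + ind G p y + ind G p a + ind G p b + ind G p d := by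
    intro p
    rw [hQe]
    exact X_six p hvx hvy hav.symm hbv.symm hdv.symm hxy hax.symm hbx.symm hdx.symm hay.symm
      hby.symm hdy.symm hab had hbd
  have hcol : ∀ C : Finset V, X G Q C =
      X G {v} C + X G {x} C + X G {y} C + X G {a} C + X G {b} C + X G {d} C := by
    intro C
    conv_lhs => rw [hQe]
    exact X_six_left C hvx hvy hav.symm hbv.symm hdv.symm hxy hax.symm hbx.symm hdx.symm hay.symm
      hby.symm hdy.symm hab had hbd
  have hQQ := hcol Q
  rw [hrow v, hrow x, hrow y, hrow a, hrow b, hrow d] at hQQ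
  have hQO := hcol (A \ Q)
  have hdx' := X_split_right G {x} hQA
  have hdy' := X_split_right G {y} hQA
  have hda' := X_split_right G {a} hQA
  have hdb' := X_split_right G {b} hQA
  have hdd' := X_split_right G {d} hQA
  have hdv' := X_split_right G {v} hQA
  rw [hrow] at hdx' hdy' hda' hdb' hdd' hdv'
  have gx := c.deg_ge x (hQA hx)
  have gy := c.deg_ge y (hQA hy)
  have ga := c.deg_ge a (hQA haQ)
  have gb := c.deg_ge b (hQA hbQ)
  have gd := c.deg_ge d (hQA hdQ)
  rw [← hG] at gx gy ga gb gd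
  have ivx := ind_of_adj (hvadj x hx hvx)
  have ivy := ind_of_adj (hvadj y hy hvy)
  have iva := ind_of_adj (hvadj a haQ hav.symm)
  have ivb := ind_of_adj (hvadj b hbQ hbv.symm)
  have ivd := ind_of_adj (hvadj d hdQ hdv.symm)
  have ixy := ind_of_not hnxy
  simp only [ind_comm G x v, ind_comm G y v, ind_comm G a v, ind_comm G b v, ind_comm G d v,
    ind_comm G y x, ind_comm G a x, ind_comm G b x, ind_comm G d x, ind_comm G a y,
    ind_comm G b y, ind_comm G d y, ind_comm G b a, ind_comm G d a, ind_comm G d b,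
    ind_self, ivx, ivy, iva, ivb, ivd, ixy] at hQQ hdx' hdy' hda' hdb' hdd' hdv'
  have hp' : ∀ p ∈ Q, ∀ q ∈ Q, p ≠ q → ind G p q = 0 →
      k + 1 ≤ X G {p} (A \ Q) + X G {q} (A \ Q) := by
    intro p hp1 q hq1 hne h0
    refine hp p hp1 q hq1 hne (fun h => ?_)
    rw [ind_of_adj h] at h0; omega
  have key := star_num k (ind G x a) (ind G x b) (ind G x d) (ind G y a) (ind G y b) (ind G y d)
    (ind G a b) (ind G a d) (ind G b d) (X G {x} (A \ Q)) (X G {y} (A \ Q)) (X G {a} (A \ Q))
    (X G {b} (A \ Q)) (X G {d} (A \ Q)) hk (ind_le _ _ _) (ind_le _ _ _) (ind_le _ _ _)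
    (ind_le _ _ _) (ind_le _ _ _) (ind_le _ _ _) (ind_le _ _ _) (ind_le _ _ _) (ind_le _ _ _)
    (by omega) (by omega) (by omega) (by omega) (by omega) (by omega)
    (hp' x hx y hy hxy ixy) (hp' x hx a haQ hax.symm) (hp' x hx b hbQ hbx.symm)
    (hp' x hx d hdQ hdx.symm) (hp' y hy a haQ hay.symm) (hp' y hy b hbQ hby.symm)
    (hp' y hy d hdQ hdy.symm)
  obtain ⟨⟨iab, iad, ibd⟩, key⟩ := key
  rcases key with ⟨ixa, ixb, ixd, iya, iyb, iyd⟩ | ⟨iya, iyb, iyd, sy, sa, sb, sd⟩ |
    ⟨ixa, ixb, ixd, sx, sa, sb, sd⟩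
  · -- one missing pair
    have hcl : ∀ p ∈ Q, ∀ q ∈ Q, p ≠ q → ¬ (p = x ∧ q = y) → ¬ (p = y ∧ q = x) → G.Adj p q := by
      intro p hp1 q hq1 hne h1 h2
      rw [hQe] at hp1 hq1
      simp only [Finset.mem_insert, Finset.mem_singleton] at hp1 hq1
      rcases hp1 with rfl | rfl | rfl | rfl | rfl | rfl <;>
        rcases hq1 with rfl | rfl | rfl | rfl | rfl | rfl <;>
        first
          | exact absurd rfl hne
          | exact absurd ⟨rfl, rfl⟩ h1
          | exact absurd ⟨rfl, rfl⟩ h2
          | (apply adj_of_ind; assumption)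
          | (apply SimpleGraph.Adj.symm; apply adj_of_ind; assumption)
    rcases lt_trichotomy (r x) (r y) with h | h | h
    · exact c.noK6m hQA hQc hvQ hx hy hxy hnxy hcl hvN h
    · exact hxy (c.rk.1 x (hQA hx) y (hQA hy) h)
    · exact c.noK6m hQA hQc hvQ hy hx hxy.symm (fun e => hnxy e.symm)
        (fun p hp1 q hq1 hne h1 h2 => hcl p hp1 q hq1 hne h2 h1) hvN h
  · exact c.five hv (hQA hy) (hQA haQ) (hQA hbQ) (hQA hdQ) (adj_of_ind ivy) (adj_of_ind iva)
      (adj_of_ind ivb) (adj_of_ind ivd) (adj_of_ind iya) (adj_of_ind iyb) (adj_of_ind iyd)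
      (adj_of_ind iab) (adj_of_ind iad) (adj_of_ind ibd) hd (by rw [← hG]; omega)
      (by rw [← hG]; omega) (by rw [← hG]; omega) (by rw [← hG]; omega)
  · exact c.five hv (hQA hx) (hQA haQ) (hQA hbQ) (hQA hdQ) (adj_of_ind ivx) (adj_of_ind iva)
      (adj_of_ind ivb) (adj_of_ind ivd) (adj_of_ind ixa) (adj_of_ind ixb) (adj_of_ind ixd)
      (adj_of_ind iab) (adj_of_ind iad) (adj_of_ind ibd) hd (by rw [← hG]; omega)
      (by rw [← hG]; omega) (by rw [← hG]; omega) (by rw [← hG]; omega)

/-- there is no minimal counterexample -/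
theorem Ctx.false (c : Ctx F H r A) : False := by
  obtain ⟨v, hv, hd⟩ := c.exists_deg5
  set G := F ⊔ H with hG
  have hQc : (Nb G A {v}).card = 6 := by rw [Nb_singleton_card G hv, hd]
  have hQA : Nb G A {v} ⊆ A := Nb_sub G A {v}
  have hvQ : v ∈ Nb G A {v} := mem_Nb.2 ⟨hv, Or.inl (Finset.mem_singleton_self v)⟩
  have hred := c.red (S := {v}) (Finset.singleton_subset_iff.2 hv) (Finset.singleton_nonempty v)
    (Ind_singleton _ v)
  rw [← hG, hQc, Finset.card_singleton, X_split_right G _ hQA] at hred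
  by_cases hall : ∀ p ∈ Nb G A {v}, ∀ q ∈ Nb G A {v}, p ≠ q → ¬ G.Adj p q →
      5 + 1 ≤ X G {p} (A \ Nb G A {v}) + X G {q} (A \ Nb G A {v})
  · refine c.star (k := 5) (by omega) hv hd ?_ hall
    obtain ⟨m, hm⟩ := X_even G (Nb G A {v})
    rw [← hG]
    omega
  · push Not at hall
    obtain ⟨x, hx, y, hy, hxy, hn, hlt⟩ := hall
    have h11 : (Nb G A {x, y}).card ≤ 11 := by
      have := Nb_pair_card (G := G) (A := A) hx hy
      omega
    by_cases hR : Nb G A {x, y} = A
    · -- eleven vertices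
      have h0 := c.p0 (S := {x, y}) (by
        intro a ha
        simp only [Finset.mem_insert, Finset.mem_singleton] at ha
        rcases ha with h | h
        · rw [h]; exact hQA hx
        · rw [h]; exact hQA hy) ⟨x, by simp⟩ (Ind_pair hn)
      rw [← hG, hR, Finset.card_pair hxy] at h0
      rw [hR] at h11
      have hA11 : A.card = 11 := by omega
      have hα : ∀ J ⊆ A, Ind G J → J.card ≤ 2 := by
        intro J hJ hJi
        by_contra hcon
        apply c.neg
        refine ⟨J, hJ, hJi, ?_⟩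
        rw [hA11]
        omega
      have he := edges_union c.fo c.rk (by omega)
      rw [← hG, hA11, X_split G hQA] at he
      -- the rest is a clique
      have hcl : ∀ a ∈ A \ Nb G A {v}, ∀ b ∈ A \ Nb G A {v}, a ≠ b → G.Adj a b := by
        intro a ha b hb hab
        by_contra hnab
        have ha' := Finset.mem_sdiff.1 ha
        have hb' := Finset.mem_sdiff.1 hb
        have hva : ¬ G.Adj v a := fun h => ha'.2 (mem_Nb.2 ⟨ha'.1, Or.inr ⟨v, by simp, h⟩⟩)
        have hvb : ¬ G.Adj v b := fun h => hb'.2 (mem_Nb.2 ⟨hb'.1, Or.inr ⟨v, by simp, h⟩⟩)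
        have hva2 : v ≠ a := fun h => ha'.2 (h ▸ hvQ)
        have hvb2 : v ≠ b := fun h => hb'.2 (h ▸ hvQ)
        have h3 := hα {v, a, b} (by
          intro t ht
          simp only [Finset.mem_insert, Finset.mem_singleton] at ht
          rcases ht with h | h | h
          · rw [h]; exact hv
          · rw [h]; exact ha'.1
          · rw [h]; exact hb'.1) (by
          apply Ind_insert (Ind_pair hnab)
          intro t ht
          simp only [Finset.mem_insert, Finset.mem_singleton] at ht
          rcases ht with h | h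
          · rw [h]; exact hva
          · rw [h]; exact hvb)
        rw [Finset.card_insert_of_notMem (by simp [hva2, hvb2]), Finset.card_pair hab] at h3
        omega
      have hBc : (A \ Nb G A {v}).card = 5 := by
        rw [Finset.card_sdiff_of_subset hQA]; omega
      have hBB := X_clique G _ hcl
      rw [hBc] at hBB
      refine c.star (k := 4) le_rfl hv hd ?_ ?_
      · rw [← hG]
        omega
      · rw [← hG]
        intro p hp q hq hpq hnpq
        have h1 : (A \ Nb G A {v}).card ≤
            X G {p} (A \ Nb G A {v}) + X G {q} (A \ Nb G A {v}) := by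
          rw [X_singleton_left, X_singleton_left, ← Finset.sum_add_distrib,
            Finset.card_eq_sum_ones]
          apply Finset.sum_le_sum
          intro t ht
          by_contra hcon
          have hpt : ¬ G.Adj p t := fun h => hcon (by rw [ind_of_adj h]; omega)
          have hqt : ¬ G.Adj q t := fun h => hcon (by rw [ind_of_adj h]; omega)
          have ht' := Finset.mem_sdiff.1 ht
          have h3 := hα {t, p, q} (by
            intro s hs
            simp only [Finset.mem_insert, Finset.mem_singleton] at hs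
            rcases hs with h | h | h
            · rw [h]; exact ht'.1
            · rw [h]; exact hQA hp
            · rw [h]; exact hQA hq) (by
            apply Ind_insert (Ind_pair hnpq)
            intro s hs
            simp only [Finset.mem_insert, Finset.mem_singleton] at hs
            rcases hs with h | h
            · rw [h]; exact fun e => hpt e.symm
            · rw [h]; exact fun e => hqt e.symm)
          have htp : t ≠ p := fun h => ht'.2 (h ▸ hp)
          have htq : t ≠ q := fun h => ht'.2 (h ▸ hq)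
          rw [Finset.card_insert_of_notMem (by simp [htp, htq]), Finset.card_pair hpq] at h3
          omega
        omega
    · exact c.step3 (hQA hx) (hQA hy) hxy hn h11 hR

/-- the inequality -/
theorem main (n : ℕ) : ∀ (F H : SimpleGraph V) (r : V → ℕ) (A : Finset V), A.card = n →
    Fo F A → Rk H r A → P (F ⊔ H) A := by
  induction n using Nat.strong_induction_on with
  | _ n ih =>
    intro F H r A hn hF hH
    by_contra hneg
    have c : Ctx F H r A := ⟨hF, hH, hneg, fun F' H' r' A' hlt hF' hH' =>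
      ih A'.card (by omega) F' H' r' A' rfl hF' hH'⟩
    exact c.false

end Pool.Agent.Helper97.Tarsi
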