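import Pool.Agent.Helper97.Tarsi.K6

set_option autoImplicit false
set_option linter.unusedSectionVars false

/-! The end of the proof: two nonadjacent vertices with a closed neighbourhood of size eleven,
and the neighbourhood of a vertex of degree five. -/

namespace Pool.Agent.Helper97.Tarsi

open Finset

variable {V : Type*} [DecidableEq V]

theorem clique_of_X {G : SimpleGraph V} {O : Finset V} (h : O.card * O.card ≤ X G O O + O.card) :
    ∀ a ∈ O, ∀ b ∈ O, a ≠ b → G.Adj a b := by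
  have h1 : ∑ b ∈ O, (X G {b} O + 1) = ∑ _b ∈ O, O.card := by
    apply le_antisymm
    · exact Finset.sum_le_sum (fun b hb => X_single_le G b O hb)
    · rw [Finset.sum_add_distrib, ← X_eq_sum]
      simpa using h
  have h2 := (Finset.sum_eq_sum_iff_of_le (fun b hb => X_single_le G b O hb)).1 h1
  intro a ha b hb hab
  have h3 := h2 a ha
  have hs : ({a} : Finset V) ⊆ O := Finset.singleton_subset_iff.2 ha
  have e1 := X_split_right G {a} hs
  rw [X_singleton_self] at e1
  have h4 : (O \ {a}).card + 1 = O.card := by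
    rw [Finset.card_sdiff_of_subset hs]
    have := Finset.card_pos.2 ⟨a, ha⟩
    simp; omega
  have h5 : ∑ c ∈ O \ {a}, ind G a c = ∑ _c ∈ O \ {a}, 1 := by
    rw [← X_singleton_left, ← Finset.card_eq_sum_ones]; omega
  have h6 := (Finset.sum_eq_sum_iff_of_le (fun c _ => ind_le G a c)).1 h5
  exact adj_of_ind (h6 b (by rw [Finset.mem_sdiff, Finset.mem_singleton]; exact ⟨hb, fun e => hab e.symm⟩))

theorem deg_of_sum {G : SimpleGraph V} {A R : Finset V} {k : ℕ} (h : ∀ v ∈ R, k ≤ X G {v} A)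
    (hs : X G R A ≤ k * R.card) : ∀ v ∈ R, X G {v} A = k := by
  have h1 : ∑ _v ∈ R, k = ∑ v ∈ R, X G {v} A := by
    apply le_antisymm
    · exact Finset.sum_le_sum h
    · rw [← X_eq_sum]; simpa [mul_comm] using hs
  intro v hv
  exact ((Finset.sum_eq_sum_iff_of_le h).1 h1 v hv).symm

variable {F H : SimpleGraph V} {r : V → ℕ} {A : Finset V}

/-- two nonadjacent vertices with closed neighbourhood of size at most eleven -/
theorem Ctx.step3 (c : Ctx F H r A) {x y : V} (hx : x ∈ A) (hy : y ∈ A) (hxy : x ≠ y)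
    (hn : ¬ (F ⊔ H).Adj x y) (h11 : (Nb (F ⊔ H) A {x, y}).card ≤ 11)
    (hR : Nb (F ⊔ H) A {x, y} ≠ A) : False := by
  set G := F ⊔ H with hG
  set R := Nb G A {x, y} with hRdef
  have hS : ({x, y} : Finset V) ⊆ A := by
    intro a ha
    simp only [Finset.mem_insert, Finset.mem_singleton] at ha
    rcases ha with h | h
    · rw [h]; exact hx
    · rw [h]; exact hy
  have hS2 : ({x, y} : Finset V).card = 2 := Finset.card_pair hxy
  have hRA : R ⊆ A := Nb_sub G A _
  have h0 := c.p0 hS ⟨x, by simp⟩ (Ind_pair hn)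
  have hred := c.red hS ⟨x, by simp⟩ (Ind_pair hn)
  rw [← hG, ← hRdef, hS2] at h0 hred
  have hRc : R.card = 11 := by omega
  have hdeg := c.sum_deg hRA
  rw [← hG] at hdeg
  have hspl := X_split_right G R hRA
  obtain ⟨k, hk⟩ := X_even G R
  obtain ⟨J, hJ, hJi, hJc⟩ := c.sub hRA hR
  rw [← hG] at hJi hJc
  rw [hRc] at hred hdeg hJc
  have hJ3 : 3 ≤ J.card := by
    by_contra hcon; omega
  obtain ⟨S, hSJ, hSc⟩ := Finset.exists_subset_card_eq hJ3
  have hSR : S ⊆ R := hSJ.trans hJ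
  have hSA : S ⊆ A := hSR.trans hRA
  have hSne : S.Nonempty := Finset.card_pos.1 (by omega)
  have hSi : Ind G S := hJi.mono hSJ
  have h1 := c.p0 hSA hSne hSi
  have hred2 := c.red hSA hSne hSi
  rw [← hG, hSc] at h1 hred2
  set R' := Nb G A S with hR'
  set O := R' \ R with hO
  have hR'A : R' ⊆ A := Nb_sub G A S
  have hOout : O ⊆ A \ R := Finset.sdiff_subset_sdiff hR'A (Finset.Subset.refl _)
  have hOc : O.card ≤ X G R O := by
    rw [X_comm, X_eq_sum, Finset.card_eq_sum_ones]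
    apply Finset.sum_le_sum
    intro o ho
    have h2 := Finset.mem_sdiff.1 ho
    have h3 := (mem_Nb.1 h2.1).2
    rcases h3 with h3 | ⟨s, hs, hadj⟩
    · exact absurd (hSR h3) h2.2
    · have := card_le_X (G := G) (q := o) (C := R) (S := {s}) (by
        intro b hb
        rw [Finset.mem_singleton.1 hb]
        exact ⟨hSR hs, hadj.symm⟩)
      simpa using this
  have hOle : X G R O ≤ X G R (A \ R) := X_mono (Finset.Subset.refl _) hOout
  have hR'O : R'.card ≤ (R' ∩ R).card + O.card := by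
    rw [hO, add_comm, Finset.card_sdiff_add_card_inter]
  have hint : (R' ∩ R).card ≤ R.card := Finset.card_le_card Finset.inter_subset_right
  have hO5 : O.card = 5 := by omega
  have hRR' : (R' ∩ R) = R := by
    apply Finset.eq_of_subset_of_card_le Finset.inter_subset_right
    omega
  have hRsub : R ⊆ R' := by
    rw [← hRR']; exact Finset.inter_subset_left
  have hR'c : R'.card = 16 := by
    have := Finset.card_sdiff_add_card_inter R' R
    rw [hRR'] at this
    omega
  have hdeg2 := c.sum_deg hR'A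
  rw [← hG, hR'c] at hdeg2
  rw [hR'c] at hred2
  have hspl2 := X_split_right G R' hR'A
  obtain ⟨k', hk'⟩ := X_even G R'
  have hspl3 := X_split G hRsub
  rw [← hO] at hspl3
  have hOO : 20 ≤ X G O O := by omega
  have hcl : ∀ a ∈ O, ∀ b ∈ O, a ≠ b → G.Adj a b := clique_of_X (by rw [hO5]; omega)
  have hd5 : ∀ v ∈ R', X G {v} A = 5 := by
    apply deg_of_sum (fun v hv => c.deg_ge v (hR'A hv))
    rw [hR'c, ← hG]; omega
  exact c.noK5 (hOout.trans Finset.sdiff_subset) hO5 hcl
    (fun q hq => hd5 q (Finset.mem_sdiff.1 hq).1)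

open Classical in
theorem Nb_pair_card {G : SimpleGraph V} {A Q : Finset V} {x y : V} (hx : x ∈ Q) (hy : y ∈ Q) :
    (Nb G A {x, y}).card ≤ Q.card + X G {x} (A \ Q) + X G {y} (A \ Q) := by
  have key : ∀ M N : Finset V, (∀ a ∈ A \ Q, G.Adj x a → a ∈ M) →
      (∀ a ∈ A \ Q, G.Adj y a → a ∈ N) →
      (Nb G A {x, y}).card ≤ Q.card + M.card + N.card := by
    intro M N hM hN
    have h3 : Nb G A {x, y} ⊆ Q ∪ M ∪ N := by
      intro a ha
      obtain ⟨h1, h2⟩ := mem_Nb.1 ha
      by_cases haQ : a ∈ Q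
      · exact Finset.mem_union_left _ (Finset.mem_union_left _ haQ)
      · rcases h2 with h2 | ⟨s, hs, hadj⟩
        · simp only [Finset.mem_insert, Finset.mem_singleton] at h2
          rcases h2 with h | h
          · exact absurd (h ▸ hx) haQ
          · exact absurd (h ▸ hy) haQ
        · simp only [Finset.mem_insert, Finset.mem_singleton] at hs
          rcases hs with h | h
          · rw [h] at hadj
            exact Finset.mem_union_left _ (Finset.mem_union_right _
              (hM a (Finset.mem_sdiff.2 ⟨h1, haQ⟩) hadj))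
          · rw [h] at hadj
            exact Finset.mem_union_right _ (hN a (Finset.mem_sdiff.2 ⟨h1, haQ⟩) hadj)
    have h1 := Finset.card_union_le (Q ∪ M) N
    have h2 := Finset.card_union_le Q M
    have h4 := Finset.card_le_card h3
    omega
  rw [X_singleton_card, X_singleton_card]
  exact key _ _ (fun a ha h => Finset.mem_filter.2 ⟨ha, h⟩)
    (fun a ha h => Finset.mem_filter.2 ⟨ha, h⟩)

/-- the numerical core: `xy` is a missing pair, the other three are `a b d` -/
theorem star_num (k xa xb xd ya yb yd ab ad bd ox oy oa ob od : ℕ) (hk : 4 ≤ k)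
    (h1 : xa ≤ 1) (h2 : xb ≤ 1) (h3 : xd ≤ 1) (h4 : ya ≤ 1) (h5 : yb ≤ 1) (h6 : yd ≤ 1)
    (h7 : ab ≤ 1) (h8 : ad ≤ 1) (h9 : bd ≤ 1)
    (dx : 5 ≤ 1 + xa + xb + xd + ox) (dy : 5 ≤ 1 + ya + yb + yd + oy)
    (da : 5 ≤ 1 + xa + ya + ab + ad + oa) (db : 5 ≤ 1 + xb + yb + ab + bd + ob)
    (dd : 5 ≤ 1 + xd + yd + ad + bd + od)
    (hs : 10 + 2 * (xa + xb + xd + ya + yb + yd + ab + ad + bd) + 2 * (ox + oy + oa + ob + od)
      ≤ 2 * k + 30)
    (pxy : k + 1 ≤ ox + oy) (pxa : xa = 0 → k + 1 ≤ ox + oa) (pxb : xb = 0 → k + 1 ≤ ox + ob)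
    (pxd : xd = 0 → k + 1 ≤ ox + od) (pya : ya = 0 → k + 1 ≤ oy + oa)
    (pyb : yb = 0 → k + 1 ≤ oy + ob) (pyd : yd = 0 → k + 1 ≤ oy + od) :
    (ab = 1 ∧ ad = 1 ∧ bd = 1) ∧
      ((xa = 1 ∧ xb = 1 ∧ xd = 1 ∧ ya = 1 ∧ yb = 1 ∧ yd = 1) ∨
       (ya = 1 ∧ yb = 1 ∧ yd = 1 ∧ 1 + ya + yb + yd + oy = 5 ∧ 1 + xa + ya + ab + ad + oa = 5 ∧
          1 + xb + yb + ab + bd + ob = 5 ∧ 1 + xd + yd + ad + bd + od = 5) ∨
       (xa = 1 ∧ xb = 1 ∧ xd = 1 ∧ 1 + xa + xb + xd + ox = 5 ∧ 1 + xa + ya + ab + ad + oa = 5 ∧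
          1 + xb + yb + ab + bd + ob = 5 ∧ 1 + xd + yd + ad + bd + od = 5)) := by
  have hab : ab = 1 := by omega
  have had : ad = 1 := by omega
  have hbd : bd = 1 := by omega
  subst hab; subst had; subst hbd
  refine ⟨⟨rfl, rfl, rfl⟩, ?_⟩
  interval_cases xa <;> interval_cases xb <;> interval_cases xd <;> interval_cases ya <;>
    interval_cases yb <;> interval_cases yd <;> simp at * <;> omega

end Pool.Agent.Helper97.Tarsi
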