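import Pool.Agent.Helper97.Tarsi.Count

set_option autoImplicit false
set_option linter.unusedSectionVars false

/-! Deleting a closed neighbourhood in a minimal counterexample. -/

namespace Pool.Agent.Helper97.Tarsi

open Finset

variable {V : Type*} [DecidableEq V]

/-- independent set -/
def Ind (G : SimpleGraph V) (J : Finset V) : Prop := ∀ a ∈ J, ∀ b ∈ J, ¬ G.Adj a b

/-- the inequality -/
def P (G : SimpleGraph V) (A : Finset V) : Prop :=
  ∃ J ⊆ A, Ind G J ∧ 22 * A.card ≤ 90 * J.card + X G A A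

open Classical in
/-- closed neighbourhood of `S` in `A` -/
noncomputable def Nb (G : SimpleGraph V) (A S : Finset V) : Finset V :=
  A.filter (fun a => a ∈ S ∨ ∃ s ∈ S, G.Adj s a)

theorem mem_Nb {G : SimpleGraph V} {A S : Finset V} {a : V} :
    a ∈ Nb G A S ↔ a ∈ A ∧ (a ∈ S ∨ ∃ s ∈ S, G.Adj s a) := by
  simp [Nb]

theorem Nb_sub (G : SimpleGraph V) (A S : Finset V) : Nb G A S ⊆ A := fun _ h => (mem_Nb.1 h).1

theorem sub_Nb (G : SimpleGraph V) {A S : Finset V} (h : S ⊆ A) : S ⊆ Nb G A S :=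
  fun _ ha => mem_Nb.2 ⟨h ha, Or.inl ha⟩

theorem Ind.mono {G : SimpleGraph V} {J K : Finset V} (h : Ind G J) (hK : K ⊆ J) : Ind G K :=
  fun a ha b hb => h a (hK ha) b (hK hb)

theorem Ind_singleton (G : SimpleGraph V) (v : V) : Ind G {v} := by
  intro a ha b hb
  simp only [Finset.mem_singleton] at ha hb
  subst ha; subst hb; exact G.irrefl

theorem Ind_pair {G : SimpleGraph V} {x y : V} (h : ¬ G.Adj x y) : Ind G {x, y} := by
  intro a ha b hb
  simp only [Finset.mem_insert, Finset.mem_singleton] at ha hb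
  rcases ha with rfl | rfl <;> rcases hb with rfl | rfl
  · exact G.irrefl
  · exact h
  · exact fun e => h e.symm
  · exact G.irrefl

theorem Ind_insert {G : SimpleGraph V} {J : Finset V} {q : V} (h : Ind G J)
    (hq : ∀ a ∈ J, ¬ G.Adj q a) : Ind G (insert q J) := by
  intro a ha b hb
  simp only [Finset.mem_insert] at ha hb
  rcases ha with rfl | ha <;> rcases hb with rfl | hb
  · exact G.irrefl
  · exact hq b hb
  · exact fun e => hq a ha e.symm
  · exact h a ha b hb

/-- the context of a minimal counterexample -/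
structure Ctx (F H : SimpleGraph V) (r : V → ℕ) (A : Finset V) : Prop where
  fo : Fo F A
  rk : Rk H r A
  neg : ¬ P (F ⊔ H) A
  ih : ∀ (F' H' : SimpleGraph V) (r' : V → ℕ) (A' : Finset V), A'.card < A.card →
    Fo F' A' → Rk H' r' A' → P (F' ⊔ H') A'

variable {F H : SimpleGraph V} {r : V → ℕ} {A : Finset V}

theorem Ctx.sub (c : Ctx F H r A) {B : Finset V} (h : B ⊆ A) (hne : B ≠ A) : P (F ⊔ H) B :=
  c.ih F H r B (Finset.card_lt_card (Finset.ssubset_iff_subset_ne.2 ⟨h, hne⟩))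
    (c.fo.mono h) (c.rk.mono h)

theorem Ctx.nonempty (c : Ctx F H r A) : A.Nonempty := by
  rw [Finset.nonempty_iff_ne_empty]
  rintro rfl
  exact c.neg ⟨∅, by simp, by intro a ha; simp at ha, by simp⟩

theorem Ctx.red (c : Ctx F H r A) {S : Finset V} (hS : S ⊆ A) (hne : S.Nonempty)
    (hI : Ind (F ⊔ H) S) :
    90 * S.card + 2 * X (F ⊔ H) (Nb (F ⊔ H) A S) A <
      22 * (Nb (F ⊔ H) A S).card + X (F ⊔ H) (Nb (F ⊔ H) A S) (Nb (F ⊔ H) A S) := by
  set G := F ⊔ H with hG
  set R := Nb G A S with hR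
  have hRA : R ⊆ A := Nb_sub G A S
  have hSR : S ⊆ R := sub_Nb G hS
  have hne2 : A \ R ≠ A := by
    obtain ⟨s, hs⟩ := hne
    intro e
    have : s ∈ A \ R := by rw [e]; exact hS hs
    exact (Finset.mem_sdiff.1 this).2 (hSR hs)
  obtain ⟨J, hJ, hJi, hJc⟩ := c.sub (B := A \ R) Finset.sdiff_subset hne2
  rw [← hG] at hJc
  have hdis : Disjoint J S := by
    rw [Finset.disjoint_left]; intro a ha hs
    exact (Finset.mem_sdiff.1 (hJ ha)).2 (hSR hs)
  have hi : Ind G (J ∪ S) := by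
    intro a ha b hb
    simp only [Finset.mem_union] at ha hb
    rcases ha with ha | ha <;> rcases hb with hb | hb
    · exact hJi a ha b hb
    · intro e
      have h1 := Finset.mem_sdiff.1 (hJ ha)
      exact h1.2 (mem_Nb.2 ⟨h1.1, Or.inr ⟨b, hb, e.symm⟩⟩)
    · intro e
      have h1 := Finset.mem_sdiff.1 (hJ hb)
      exact h1.2 (mem_Nb.2 ⟨h1.1, Or.inr ⟨a, ha, e⟩⟩)
    · exact hI a ha b hb
  have hcard : (J ∪ S).card = J.card + S.card := Finset.card_union_of_disjoint hdis
  have hA := c.neg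
  have hnot : ¬ (22 * A.card ≤ 90 * (J ∪ S).card + X G A A) := fun h =>
    hA ⟨J ∪ S, Finset.union_subset (hJ.trans Finset.sdiff_subset) hS, hi, h⟩
  have e1 := X_split G hRA
  have e2 := X_split_right G R hRA
  have e3 : (A \ R).card + R.card = A.card := by
    rw [Finset.card_sdiff_of_subset hRA]
    have := Finset.card_le_card hRA
    omega
  rw [hcard] at hnot
  omega

theorem X_ge_of_deg {G : SimpleGraph V} {A R : Finset V} {k : ℕ}
    (h : ∀ v ∈ R, k ≤ X G {v} A) : k * R.card ≤ X G R A := by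
  rw [X_eq_sum]
  calc k * R.card = ∑ v ∈ R, k := by simp [mul_comm]
    _ ≤ ∑ v ∈ R, X G {v} A := Finset.sum_le_sum h

theorem Nb_singleton_card (G : SimpleGraph V) {A : Finset V} {v : V} (hv : v ∈ A) :
    (Nb G A {v}).card = X G {v} A + 1 := by
  classical
  have : Nb G A {v} = insert v (A.filter (fun a => G.Adj v a)) := by
    ext a
    simp only [mem_Nb, Finset.mem_singleton, Finset.mem_insert, Finset.mem_filter,
      exists_eq_left]
    constructor
    · rintro ⟨h1, rfl | h2⟩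
      · exact Or.inl rfl
      · exact Or.inr ⟨h1, h2⟩
    · rintro (rfl | ⟨h1, h2⟩)
      · exact ⟨hv, Or.inl rfl⟩
      · exact ⟨h1, Or.inr h2⟩
  rw [this, Finset.card_insert_of_notMem (by simp), X_singleton_card]

theorem Ctx.deg_ge (c : Ctx F H r A) : ∀ v ∈ A, 5 ≤ X (F ⊔ H) {v} A := by
  set G := F ⊔ H with hG
  obtain ⟨v, hv, hmin⟩ := Finset.exists_min_image A (fun v => X G {v} A) c.nonempty
  by_contra hcon
  push Not at hcon
  obtain ⟨w, hw, hw5⟩ := hcon
  have hd : X G {v} A ≤ 4 := by have := hmin w hw; omega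
  set d := X G {v} A with hdd
  have hred := c.red (S := {v}) (Finset.singleton_subset_iff.2 hv) (Finset.singleton_nonempty v)
    (Ind_singleton _ v)
  rw [← hG] at hred
  set R := Nb G A {v} with hR
  have hRc : R.card = d + 1 := Nb_singleton_card G hv
  have hge : d * R.card ≤ X G R A :=
    X_ge_of_deg (fun u hu => hmin u (Nb_sub G A {v} hu))
  have hle : X G R R ≤ X G R A := X_mono (Finset.Subset.refl _) (Nb_sub G A {v})
  rw [hRc] at hge hred
  simp only [Finset.card_singleton] at hred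
  interval_cases d <;> omega

theorem Ctx.sum_deg (c : Ctx F H r A) {R : Finset V} (hR : R ⊆ A) :
    5 * R.card ≤ X (F ⊔ H) R A :=
  X_ge_of_deg (fun v hv => c.deg_ge v (hR hv))

/-- edge bound for the union -/
theorem edges_union (hF : Fo F A) (hH : Rk H r A) (h2 : 2 ≤ A.card) :
    X (F ⊔ H) A A + 8 ≤ 6 * A.card := by
  have h1 := hF A (Finset.Subset.refl _) (Finset.card_pos.1 (by omega))
  have h3 := hH.edges h2
  have h4 := X_sup_le F H A A
  omega

theorem Ctx.exists_deg5 (c : Ctx F H r A) : ∃ v ∈ A, X (F ⊔ H) {v} A = 5 := by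
  by_contra hcon
  push Not at hcon
  have h6 : ∀ v ∈ A, 6 ≤ X (F ⊔ H) {v} A := by
    intro v hv
    have h1 := c.deg_ge v hv
    have h2 := hcon v hv
    omega
  have h7 := X_ge_of_deg h6
  have h1 := c.fo A (Finset.Subset.refl _) c.nonempty
  have h3 := c.rk.edges' c.nonempty
  have h4 := X_sup_le F H A A
  omega

theorem Ctx.p0 (c : Ctx F H r A) {S : Finset V} (hS : S ⊆ A) (hne : S.Nonempty)
    (hI : Ind (F ⊔ H) S) : 5 * S.card + 1 ≤ (Nb (F ⊔ H) A S).card := by
  by_contra hcon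
  have hred := c.red hS hne hI
  have h1 := c.sum_deg (Nb_sub (F ⊔ H) A S)
  have hle : X (F ⊔ H) (Nb (F ⊔ H) A S) (Nb (F ⊔ H) A S) ≤ X (F ⊔ H) (Nb (F ⊔ H) A S) A :=
    X_mono (Finset.Subset.refl _) (Nb_sub (F ⊔ H) A S)
  omega

end Pool.Agent.Helper97.Tarsi
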